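import Mathlib

set_option autoImplicit false

namespace Pool.Agent.Lib.MP_aa40d3_nt.RR

open Polynomial

variable {k : Type} [Field k]

/-- Wronskian of a family of polynomials. -/
noncomputable def wr {n : ℕ} (z : Fin n → k[X]) : k[X] :=
  (Matrix.of fun (i j : Fin n) => derivative^[(i : ℕ)] (z j)).det

theorem iter_der_const (c y : k[X]) (hc : derivative c = 0) (i : ℕ) :
    derivative^[i] (c * y) = c * derivative^[i] y := by
  induction i with
  | zero => rfl
  | succ i ih => rw [Function.iterate_succ_apply', Function.iterate_succ_apply', ih,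
      derivative_mul, hc, zero_mul, zero_add]

theorem wr_update {n : ℕ} (z : Fin n → k[X]) (j : Fin n) (c : Fin n → k[X])
    (hc : ∀ i, derivative (c i) = 0) :
    wr (Function.update z j (∑ i, c i * z i)) = c j * wr z := by
  unfold wr
  rw [← smul_eq_mul, ← Matrix.det_updateCol_sum]
  congr 1
  apply Matrix.ext
  intro i l
  by_cases h : l = j
  · subst h
    simp only [Matrix.of_apply, Function.update_self, Matrix.updateCol_self, smul_eq_mul]
    rw [iterate_derivative_sum]
    exact Finset.sum_congr rfl fun m _ => iter_der_const _ _ (hc m) _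
  · simp only [Matrix.of_apply, Function.update_of_ne h, Matrix.updateCol_ne h]

theorem wr_update_mul {n : ℕ} (z : Fin n → k[X]) (j : Fin n) (c y : k[X])
    (hc : derivative c = 0) :
    wr (Function.update z j (c * y)) = c * wr (Function.update z j y) := by
  classical
  have h := wr_update (Function.update z j y) j (Pi.single j c) (by
    intro i
    by_cases hi : i = j
    · subst hi; simpa using hc
    · simp [Pi.single_eq_of_ne hi])
  rw [Finset.sum_eq_single j (by
    intro i _ hi
    simp [Pi.single_eq_of_ne hi]) (by simp)] at h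
  simpa using h

theorem wr_update_sub {n : ℕ} (z : Fin n → k[X]) (i j : Fin n) (hij : i ≠ j) (c : k[X])
    (hc : derivative c = 0) :
    wr (Function.update z i (z i - c * z j)) = wr z := by
  classical
  have h := wr_update z i (Pi.single i 1 - Pi.single j c) (by
    intro m
    rw [Pi.sub_apply, derivative_sub]
    have h1 : derivative ((Pi.single i 1 : Fin n → k[X]) m) = 0 := by
      by_cases hm : m = i
      · subst hm; simp
      · simp [Pi.single_eq_of_ne hm]
    have h2 : derivative ((Pi.single j c : Fin n → k[X]) m) = 0 := by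
      by_cases hm : m = j
      · subst hm; simpa using hc
      · simp [Pi.single_eq_of_ne hm]
    rw [h1, h2, sub_zero])
  have e : ∑ m, (Pi.single i 1 - Pi.single j c : Fin n → k[X]) m * z m = z i - c * z j := by
    simp only [Pi.sub_apply, sub_mul, Finset.sum_sub_distrib]
    congr 1
    · rw [Finset.sum_eq_single i (by
        intro m _ hm
        simp [Pi.single_eq_of_ne hm]) (by simp)]
      simp
    · rw [Finset.sum_eq_single j (by
        intro m _ hm
        simp [Pi.single_eq_of_ne hm]) (by simp)]
      simp
  rw [e] at h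
  rw [h]
  simp [Pi.single_eq_of_ne hij]

theorem ne_zero_of_wr {n : ℕ} (z : Fin n → k[X]) (h : wr z ≠ 0) (j : Fin n) : z j ≠ 0 := by
  intro hj
  apply h
  unfold wr
  refine Matrix.det_eq_zero_of_column_eq_zero j fun i => ?_
  simp [hj]

theorem wr_scale {n : ℕ} (z : Fin n → k[X]) (c : k[X]) (hc : derivative c = 0) :
    wr (fun j => c * z j) = c ^ n * wr z := by
  unfold wr
  have := Matrix.det_smul (Matrix.of fun (i j : Fin n) => derivative^[(i : ℕ)] (z j)) c
  rw [Fintype.card_fin] at this
  rw [← this]
  congr 1
  apply Matrix.ext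
  intro i j
  simp [iter_der_const _ _ hc]

theorem coeff_euler (y : k[X]) (i m : ℕ) :
    (X ^ i * derivative^[i] y).coeff m = (descPochhammer k i).eval (m : k) * y.coeff m := by
  rw [descPochhammer_eval_eq_descFactorial, coeff_X_pow_mul']
  split_ifs with h
  · rw [coeff_iterate_derivative, Nat.sub_add_cancel h, nsmul_eq_mul]
  · rw [Nat.descFactorial_of_lt (not_le.mp h)]
    simp

theorem derivative_taylor' (a : k) (y : k[X]) : derivative (taylor a y) = taylor a (derivative y) := by
  rw [taylor_apply, taylor_apply, derivative_comp]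
  simp

theorem iter_derivative_taylor (a : k) (y : k[X]) (i : ℕ) :
    derivative^[i] (taylor a y) = taylor a (derivative^[i] y) := by
  induction i with
  | zero => rfl
  | succ i ih => rw [Function.iterate_succ_apply', Function.iterate_succ_apply', ih,
      derivative_taylor']

theorem wr_taylor {n : ℕ} (a : k) (z : Fin n → k[X]) :
    wr (fun j => taylor a (z j)) = taylor a (wr z) := by
  unfold wr
  have := (taylorAlgHom a).toRingHom.map_det
    (Matrix.of fun (i j : Fin n) => derivative^[(i : ℕ)] (z j))
  refine Eq.trans ?_ this.symm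
  congr 1
  apply Matrix.ext
  intro i j
  exact iter_derivative_taylor a (z j) i

theorem euler_det {n : ℕ} (z : Fin n → k[X]) :
    (Matrix.of fun (i j : Fin n) => X ^ (i : ℕ) * derivative^[(i : ℕ)] (z j)).det
      = X ^ (∑ i : Fin n, (i : ℕ)) * wr z := by
  unfold wr
  rw [← Finset.prod_pow_eq_pow_sum, ← Matrix.det_mul_column]
  rfl

theorem vander_ne {n : ℕ} (o : Fin n → ℕ) (ho : Function.Injective fun j => (o j : k))
    (c : Fin n → k) (hc : ∀ j, c j ≠ 0) :
    (Matrix.of fun (i j : Fin n) => (descPochhammer k i).eval (o j : k) * c j).det ≠ 0 := by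
  have h1 := Matrix.det_eval_matrixOfPolynomials_eq_det_vandermonde (fun j => (o j : k))
    (fun i : Fin n => descPochhammer k i) (fun i => descPochhammer_natDegree k i)
    (fun i => monic_descPochhammer k i)
  have h2 := Matrix.det_vandermonde_ne_zero_iff.mpr ho
  rw [h1, ← Matrix.det_transpose] at h2
  have h3 := Matrix.det_mul_row c
    (Matrix.of fun (i j : Fin n) => (descPochhammer k i).eval (o j : k))
  have e : (Matrix.of fun (i j : Fin n) => (descPochhammer k i).eval (o j : k) * c j)
      = Matrix.of fun i j => c j * (Matrix.of fun (i j : Fin n) =>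
        (descPochhammer k i).eval (o j : k)) i j := by
    apply Matrix.ext
    intro i j
    simp [mul_comm]
  rw [e, h3]
  exact mul_ne_zero (Finset.prod_ne_zero_iff.mpr fun j _ => hc j) h2

theorem coeff_prod_top {ι : Type} (s : Finset ι) (f : ι → k[X]) (d : ι → ℕ)
    (h : ∀ j ∈ s, (f j).natDegree ≤ d j) :
    (∏ j ∈ s, f j).natDegree ≤ ∑ j ∈ s, d j ∧
      (∏ j ∈ s, f j).coeff (∑ j ∈ s, d j) = ∏ j ∈ s, (f j).coeff (d j) := by
  classical
  induction s using Finset.induction_on with
  | empty => simp
  | insert a s ha ih =>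
    obtain ⟨h1, h2⟩ := ih fun j hj => h j (Finset.mem_insert_of_mem hj)
    have h0 := h a (Finset.mem_insert_self _ _)
    rw [Finset.prod_insert ha, Finset.sum_insert ha, Finset.prod_insert ha]
    exact ⟨natDegree_mul_le.trans (add_le_add h0 h1),
      by rw [coeff_mul_add_eq_of_natDegree_le h0 h1, h2]⟩

theorem det_top {n : ℕ} (A : Matrix (Fin n) (Fin n) k[X]) (d : Fin n → ℕ)
    (h : ∀ i j, (A i j).natDegree ≤ d j) :
    A.det.natDegree ≤ ∑ j, d j ∧
      A.det.coeff (∑ j, d j) = (Matrix.of fun i j => (A i j).coeff (d j)).det := by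
  rw [Matrix.det_apply', Matrix.det_apply']
  constructor
  · refine natDegree_sum_le_of_forall_le _ _ fun σ _ => ?_
    refine natDegree_mul_le.trans ?_
    rw [natDegree_intCast, zero_add]
    exact (coeff_prod_top _ _ d fun j _ => h _ j).1
  · rw [finsetSum_coeff]
    refine Finset.sum_congr rfl fun σ _ => ?_
    rw [coeff_intCast_mul, (coeff_prod_top _ _ d fun j _ => h _ j).2]
    rfl

/-- Degree of the Wronskian. -/
theorem wr_natDegree {n : ℕ} (z : Fin n → k[X]) (hz : ∀ j, z j ≠ 0)
    (hd : Function.Injective fun j => ((z j).natDegree : k)) :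
    wr z ≠ 0 ∧ (wr z).natDegree + ∑ i : Fin n, (i : ℕ) = ∑ j, (z j).natDegree := by
  obtain ⟨h1, h2⟩ := det_top
    (Matrix.of fun (i j : Fin n) => X ^ (i : ℕ) * derivative^[(i : ℕ)] (z j))
    (fun j => (z j).natDegree) (by
      intro i j
      rw [natDegree_le_iff_coeff_eq_zero]
      intro m hm
      rw [Matrix.of_apply, coeff_euler, coeff_eq_zero_of_natDegree_lt hm, mul_zero])
  simp only [Matrix.of_apply, coeff_euler] at h2
  have h3 := vander_ne (fun j => (z j).natDegree) hd (fun j => (z j).coeff (z j).natDegree)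
    (fun j => leadingCoeff_ne_zero.mpr (hz j))
  rw [← h2] at h3
  have h4 := le_antisymm h1 (le_natDegree_of_ne_zero h3)
  rw [euler_det] at h4 h3
  have hW : wr z ≠ 0 := by
    intro h
    rw [h] at h3
    simp at h3
  refine ⟨hW, ?_⟩
  rw [natDegree_X_pow_mul _ hW] at h4
  exact h4

theorem wr_trailing {n : ℕ} (z : Fin n → k[X]) (hz : ∀ j, z j ≠ 0)
    (hd : Function.Injective fun j => ((z j).natTrailingDegree : k)) :
    (wr z).natTrailingDegree + ∑ i : Fin n, (i : ℕ) = ∑ j, (z j).natTrailingDegree := by
  have hdvd : ∀ (i j : Fin n),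
      X ^ (z j).natTrailingDegree ∣ X ^ (i : ℕ) * derivative^[(i : ℕ)] (z j) := by
    intro i j
    rw [X_pow_dvd_iff]
    intro m hm
    rw [coeff_euler, coeff_eq_zero_of_lt_natTrailingDegree hm, mul_zero]
  choose N hN using hdvd
  have h1 : (Matrix.of fun (i j : Fin n) => X ^ (i : ℕ) * derivative^[(i : ℕ)] (z j)).det
      = X ^ (∑ j, (z j).natTrailingDegree) * (Matrix.of N).det := by
    rw [← Finset.prod_pow_eq_pow_sum, ← Matrix.det_mul_row]
    congr 1
    apply Matrix.ext
    intro i j
    exact hN i j
  have h2 : (Matrix.of N).det.coeff 0 ≠ 0 := by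
    have h3 := vander_ne (fun j => (z j).natTrailingDegree) hd
      (fun j => (z j).coeff (z j).natTrailingDegree)
      (fun j => trailingCoeff_nonzero_iff_nonzero.mpr (hz j))
    have h4 := (Polynomial.constantCoeff (R := k)).map_det (Matrix.of N)
    rw [constantCoeff_apply] at h4
    rw [h4]
    have e : (Polynomial.constantCoeff (R := k)).mapMatrix (Matrix.of N)
        = Matrix.of fun (i j : Fin n) => (descPochhammer k i).eval ((z j).natTrailingDegree : k)
          * (z j).coeff (z j).natTrailingDegree := by
      apply Matrix.ext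
      intro i j
      have := coeff_euler (z j) i (z j).natTrailingDegree
      rw [hN i j] at this
      have h5 := coeff_X_pow_mul (N i j) (z j).natTrailingDegree 0
      rw [zero_add] at h5
      rw [h5] at this
      exact this
    rw [e]
    exact h3
  have hN0 : (Matrix.of N).det ≠ 0 := by
    intro h
    rw [h] at h2
    simp at h2
  rw [euler_det] at h1
  have hW : wr z ≠ 0 := by
    intro h
    rw [h, mul_zero] at h1
    exact mul_ne_zero (pow_ne_zero _ X_ne_zero) hN0 h1.symm
  have h6 := congrArg natTrailingDegree h1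
  rw [mul_comm, natTrailingDegree_mul_X_pow hW, mul_comm, natTrailingDegree_mul_X_pow hN0,
    natTrailingDegree_eq_zero.mpr (Or.inr h2), zero_add] at h6
  exact h6

theorem rootMult_taylor (a : k) (y : k[X]) :
    rootMultiplicity a y = (taylor a y).natTrailingDegree :=
  rootMultiplicity_eq_natTrailingDegree

/-- Order of the Wronskian at a point. -/
theorem wr_rootMultiplicity {n : ℕ} (a : k) (z : Fin n → k[X]) (hz : ∀ j, z j ≠ 0)
    (hd : Function.Injective fun j => (rootMultiplicity a (z j) : k)) :
    rootMultiplicity a (wr z) + ∑ i : Fin n, (i : ℕ) = ∑ j, rootMultiplicity a (z j) := by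
  simp only [rootMult_taylor] at hd ⊢
  rw [← wr_taylor]
  exact wr_trailing _ (fun j h => hz j ((taylor_eq_zero _ _).mp h)) hd

end Pool.Agent.Lib.MP_aa40d3_nt.RR
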