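import Mathlib
import Pool.Agent.Lib.MP_aa40d3_nt.RR.Wr

set_option autoImplicit false

namespace Pool.Agent.Lib.MP_aa40d3_nt.RR

open Polynomial

variable {k : Type} [Field k]

theorem der_X_sub_C_pow_char (p : ℕ) [CharP k p] (a : k) : derivative ((X - C a) ^ p) = 0 := by
  rw [derivative_X_sub_C_pow, CharP.cast_eq_zero, C_0, zero_mul]

theorem sum_update_lt {n : ℕ} (f : k[X] → ℕ) (y : Fin n → k[X]) (j : Fin n) (w : k[X])
    (h : f w < f (y j)) : ∑ i, f (Function.update y j w i) < ∑ i, f (y i) := by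
  refine Finset.sum_lt_sum (fun i _ => ?_) ⟨j, Finset.mem_univ _, by simpa using h⟩
  by_cases hi : i = j
  · subst hi; simpa using h.le
  · rw [Function.update_of_ne hi]

theorem sum_update_gt {n : ℕ} (f : k[X] → ℕ) (y : Fin n → k[X]) (j : Fin n) (w : k[X])
    (h : f (y j) < f w) : ∑ i, f (y i) < ∑ i, f (Function.update y j w i) := by
  refine Finset.sum_lt_sum (fun i _ => ?_) ⟨j, Finset.mem_univ _, by simpa using h⟩
  by_cases hi : i = j
  · subst hi; simpa using h.le
  · rw [Function.update_of_ne hi]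

/-- A family with nonzero Wronskian can be changed, inside its span, into one with distinct
orders at a point. -/
theorem exists_adapted {n : ℕ} (y : Fin n → k[X]) (hW : wr y ≠ 0) (a : k) (B : ℕ)
    (hB : ∀ w ∈ Submodule.span k (Set.range y), w ≠ 0 → rootMultiplicity a w < B) :
    ∃ w : Fin n → k[X], (∀ j, w j ∈ Submodule.span k (Set.range y)) ∧ wr w = wr y ∧
      Function.Injective fun j => rootMultiplicity a (w j) := by
  classical
  let P : ℕ → Prop := fun m => ∃ w : Fin n → k[X],
    (∀ j, w j ∈ Submodule.span k (Set.range y)) ∧ wr w = wr y ∧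
      m + ∑ j, rootMultiplicity a (w j) = n * B
  have hbd : ∀ w : Fin n → k[X], (∀ j, w j ∈ Submodule.span k (Set.range y)) → wr w = wr y →
      ∑ j, rootMultiplicity a (w j) ≤ n * B := by
    intro w h1 h2
    have := Finset.sum_le_card_nsmul Finset.univ (fun j => rootMultiplicity a (w j)) B
      (fun j _ => (hB _ (h1 j) (ne_zero_of_wr w (h2 ▸ hW) j)).le)
    simpa using this
  have hex : ∃ m, P m := ⟨n * B - ∑ j, rootMultiplicity a (y j), y,
    fun j => Submodule.subset_span ⟨j, rfl⟩, rfl,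
    Nat.sub_add_cancel (hbd y (fun j => Submodule.subset_span ⟨j, rfl⟩) rfl)⟩
  obtain ⟨w, h1, h2, h3⟩ := Nat.find_spec hex
  refine ⟨w, h1, h2, ?_⟩
  intro i j hij
  by_contra hne
  have hij' : rootMultiplicity a (w i) = rootMultiplicity a (w j) := hij
  have hw0 := ne_zero_of_wr w (h2 ▸ hW)
  obtain ⟨u, hu, hu'⟩ := exists_eq_pow_rootMultiplicity_mul_and_not_dvd (w i) (hw0 i) a
  obtain ⟨v, hv, hv'⟩ := exists_eq_pow_rootMultiplicity_mul_and_not_dvd (w j) (hw0 j) a
  have hva : v.eval a ≠ 0 := fun h => hv' (dvd_iff_isRoot.mpr h)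
  let c : k := u.eval a / v.eval a
  let w' := Function.update w i (w i - C c * w j)
  have hw'W : wr w' = wr y := (wr_update_sub w i j hne (C c) derivative_C).trans h2
  have hw'S : ∀ l, w' l ∈ Submodule.span k (Set.range y) := by
    intro l
    by_cases hl : l = i
    · subst hl
      simp only [w', Function.update_self]
      rw [← smul_eq_C_mul]
      exact sub_mem (h1 l) (Submodule.smul_mem _ _ (h1 j))
    · simp only [w', Function.update_of_ne hl]
      exact h1 l
  have hne0 : w i - C c * w j ≠ 0 := by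
    have := ne_zero_of_wr w' (hw'W ▸ hW) i
    simpa [w'] using this
  have hlt : rootMultiplicity a (w i) < rootMultiplicity a (w i - C c * w j) := by
    rw [Nat.lt_iff_add_one_le, le_rootMultiplicity_iff hne0]
    have e : w i - C c * w j = (X - C a) ^ rootMultiplicity a (w i) * (u - C c * v) := by
      rw [mul_sub, ← hu, hij', mul_left_comm, ← hv]
    rw [e, pow_succ]
    refine mul_dvd_mul_left _ (dvd_iff_isRoot.mpr ?_)
    simp only [IsRoot.def, eval_sub, eval_mul, eval_C, c]
    field_simp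
    ring
  have h4 := sum_update_gt (rootMultiplicity a) w i _ hlt
  have h5 := hbd w' hw'S hw'W
  refine Nat.find_min hex (m := n * B - ∑ j, rootMultiplicity a (w' j)) ?_
    ⟨w', hw'S, hw'W, Nat.sub_add_cancel h5⟩
  have h6 : ∑ i, rootMultiplicity a (w i) < ∑ j, rootMultiplicity a (w' j) := h4
  omega

/-- Minimal bases of a module of solutions. -/
theorem exists_minimal (p : ℕ) [CharP k p] (hp : 0 < p) {n : ℕ} (Sol : k[X] → Prop)
    (hzero : Sol 0) (hadd : ∀ u v, Sol u → Sol v → Sol (u + v))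
    (hmul : ∀ c u, derivative c = 0 → Sol u → Sol (c * u))
    (hdiv : ∀ c u, derivative c = 0 → c ≠ 0 → Sol (c * u) → Sol u)
    (h : k[X]) (hh : h ≠ 0) (z : Fin n → k[X]) (hz : ∀ j, Sol (z j)) (hW : wr z ≠ 0) :
    ∃ y : Fin n → k[X], wr y ≠ 0 ∧
      (∀ w ∈ Submodule.span k (Set.range y), Sol w ∧ h ∣ w) ∧
      (Function.Injective fun j => ((y j).natDegree : k)) ∧
      ∀ a : k, ∀ w ∈ Submodule.span k (Set.range y), w ≠ 0 →
        rootMultiplicity a w < rootMultiplicity a h + p := by
  classical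
  let P : ℕ → Prop := fun m => ∃ y : Fin n → k[X], wr y ≠ 0 ∧ (∀ j, Sol (y j) ∧ h ∣ y j) ∧
    ∑ j, (y j).natDegree = m
  have hhp : derivative (h ^ p) = 0 := by
    rw [derivative_pow, CharP.cast_eq_zero, C_0, zero_mul, zero_mul]
  have hex : ∃ m, P m := ⟨_, fun j => h ^ p * z j,
    by rw [wr_scale z _ hhp]; exact mul_ne_zero (pow_ne_zero _ (pow_ne_zero _ hh)) hW,
    fun j => ⟨hmul _ _ hhp (hz j), Dvd.dvd.mul_right (dvd_pow_self h hp.ne') _⟩, rfl⟩
  obtain ⟨y, hy1, hy2, hy3⟩ := Nat.find_spec hex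
  have hmin : ∀ (j : Fin n) (w : k[X]), wr (Function.update y j w) ≠ 0 → Sol w → h ∣ w →
      (y j).natDegree ≤ w.natDegree := by
    intro j w h1 h2 h3
    by_contra hlt
    have h4 := sum_update_lt natDegree y j w (not_le.mp hlt)
    refine Nat.find_min hex (hy3 ▸ h4) ⟨Function.update y j w, h1, fun l => ?_, rfl⟩
    by_cases hl : l = j
    · subst hl
      rw [Function.update_self]
      exact ⟨h2, h3⟩
    · rw [Function.update_of_ne hl]
      exact hy2 l
  have hy0 := ne_zero_of_wr y hy1
  have hspan : ∀ w ∈ Submodule.span k (Set.range y), Sol w ∧ h ∣ w := by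
    intro w hw
    induction hw using Submodule.span_induction with
    | mem x hx => obtain ⟨j, rfl⟩ := hx; exact hy2 j
    | zero => exact ⟨hzero, dvd_zero _⟩
    | add u v _ _ hu hv => exact ⟨hadd _ _ hu.1 hv.1, dvd_add hu.2 hv.2⟩
    | smul c u _ hu =>
      rw [smul_eq_C_mul]
      exact ⟨hmul _ _ derivative_C hu.1, Dvd.dvd.mul_left hu.2 _⟩
  have key : ∀ i j : Fin n, i ≠ j → ((y i).natDegree : k) = (y j).natDegree →
      (y j).natDegree ≤ (y i).natDegree → False := by
    intro i j hij heq hle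
    obtain ⟨d, hd⟩ := Nat.exists_eq_add_of_le hle
    have hd0 : (d : k) = 0 := by
      rw [hd, Nat.cast_add] at heq
      exact add_eq_left.mp heq
    let c : k[X] := C ((y i).leadingCoeff / (y j).leadingCoeff) * X ^ d
    have hc : derivative c = 0 := by
      simp only [c]
      rw [derivative_C_mul, derivative_X_pow, hd0, C_0, zero_mul, mul_zero]
    have h1 : wr (Function.update y i (y i - c * y j)) ≠ 0 := by
      rw [wr_update_sub y i j hij c hc]
      exact hy1
    have h2 : y i - c * y j ≠ 0 := by simpa using ne_zero_of_wr _ h1 i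
    have h3 := hmin i _ h1 (by
      rw [sub_eq_add_neg, ← neg_mul]
      exact hadd _ _ (hy2 i).1 (hmul _ _ (by rw [derivative_neg, hc, neg_zero]) (hy2 j).1))
      (dvd_sub (hy2 i).2 (Dvd.dvd.mul_left (hy2 j).2 _))
    have hlj : (y j).leadingCoeff ≠ 0 := leadingCoeff_ne_zero.mpr (hy0 j)
    have hli : (y i).leadingCoeff ≠ 0 := leadingCoeff_ne_zero.mpr (hy0 i)
    have hq : (y i).leadingCoeff / (y j).leadingCoeff ≠ 0 := div_ne_zero hli hlj
    have h4 : (y i - c * y j).degree < (y i).degree := by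
      refine degree_sub_lt_left ?_ (hy0 i) ?_
      · rw [degree_mul, degree_C_mul_X_pow _ hq, degree_eq_natDegree (hy0 i),
          degree_eq_natDegree (hy0 j), hd, add_comm]
        rfl
      · rw [leadingCoeff_mul, leadingCoeff_C_mul_X_pow, div_mul_cancel₀ _ hlj]
    exact absurd (natDegree_lt_natDegree h2 h4) (not_lt.mpr h3)
  refine ⟨y, hy1, hspan, ?_, ?_⟩
  · intro i j hij
    by_contra hne
    rcases le_total (y j).natDegree (y i).natDegree with hle | hle
    · exact key i j hne hij hle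
    · exact key j i (Ne.symm hne) (Eq.symm hij) hle
  · intro a w hw hw0
    by_contra hge
    obtain ⟨hS, q, hq⟩ := hspan w hw
    obtain ⟨c, hc⟩ := (Submodule.mem_span_range_iff_exists_fun k).mp hw
    have hq0 : q ≠ 0 := by
      intro h0
      rw [h0, mul_zero] at hq
      exact hw0 hq
    have hm : p ≤ rootMultiplicity a q := by
      have := rootMultiplicity_mul (x := a) (hq ▸ hw0 : h * q ≠ 0)
      rw [← hq] at this
      omega
    obtain ⟨q', hq'⟩ := (le_rootMultiplicity_iff hq0).mp hm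
    have hww : w = (X - C a) ^ p * (h * q') := by rw [hq, hq']; ring
    have hne : (Finset.univ.filter fun j => c j ≠ 0).Nonempty := by
      by_contra hem
      apply hw0
      rw [← hc]
      refine Finset.sum_eq_zero fun j _ => ?_
      have : c j = 0 := by
        by_contra hcj
        exact hem ⟨j, Finset.mem_filter.mpr ⟨Finset.mem_univ _, hcj⟩⟩
      rw [this, zero_smul]
    obtain ⟨j, hj, hmax⟩ := Finset.exists_max_image _ (fun j => (y j).natDegree) hne
    have hcj : c j ≠ 0 := (Finset.mem_filter.mp hj).2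
    have hdeg : w.natDegree ≤ (y j).natDegree := by
      rw [← hc]
      refine natDegree_sum_le_of_forall_le _ _ fun i _ => ?_
      by_cases hci : c i = 0
      · rw [hci, zero_smul, natDegree_zero]
        exact Nat.zero_le _
      · exact (natDegree_smul_le _ _).trans
          (hmax i (Finset.mem_filter.mpr ⟨Finset.mem_univ _, hci⟩))
    have hXp : ((X - C a) ^ p : k[X]) ≠ 0 := pow_ne_zero _ (X_sub_C_ne_zero a)
    have h1 := wr_update y j (fun i => C (c i)) (fun i => derivative_C)
    simp only [← smul_eq_C_mul] at h1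
    rw [hc, hww, wr_update_mul y j _ _ (der_X_sub_C_pow_char p a)] at h1
    have h2 : wr (Function.update y j (h * q')) ≠ 0 := by
      intro h0
      rw [h0, mul_zero] at h1
      exact smul_ne_zero hcj hy1 h1.symm
    have h3 := hmin j _ h2 (hdiv _ _ (der_X_sub_C_pow_char p a) hXp (hww ▸ hS))
      (dvd_mul_right _ _)
    have h4 : h * q' ≠ 0 := by
      intro h0
      rw [h0, mul_zero] at hww
      exact hw0 hww
    have h5 := congrArg natDegree hww
    rw [natDegree_mul hXp h4, natDegree_pow, natDegree_X_sub_C, mul_one] at h5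
    omega

theorem cast_inj_lt (p : ℕ) [CharP k p] {a b : ℕ} (ha : a < p) (hb : b < p)
    (h : (a : k) = (b : k)) : a = b := by
  have := (CharP.natCast_eq_natCast k p).mp h
  rwa [Nat.ModEq, Nat.mod_eq_of_lt ha, Nat.mod_eq_of_lt hb] at this

/-- Local structure of a minimal basis at a point. -/
theorem local_orders (p : ℕ) [CharP k p] {n : ℕ} (Sol : k[X] → Prop) (h : k[X])
    (y : Fin n → k[X]) (hW : wr y ≠ 0)
    (hspan : ∀ w ∈ Submodule.span k (Set.range y), Sol w ∧ h ∣ w) (a : k)
    (hB : ∀ w ∈ Submodule.span k (Set.range y), w ≠ 0 →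
        rootMultiplicity a w < rootMultiplicity a h + p)
    (e : Fin n → ℕ) (he : ∀ j, e j < p)
    (hind : ∀ w, w ≠ 0 → Sol w →
      ∃ j, (rootMultiplicity a w : k) = ((rootMultiplicity a h + e j : ℕ) : k)) :
    rootMultiplicity a (wr y) + ∑ i : Fin n, (i : ℕ) = n * rootMultiplicity a h + ∑ j, e j := by
  obtain ⟨w, hw1, hw2, hw3⟩ := exists_adapted y hW a _ hB
  have hw0 := ne_zero_of_wr w (hw2 ▸ hW)
  choose σ hσ using fun j => hind (w j) (hw0 j) (hspan _ (hw1 j)).1
  have hlow : ∀ j, rootMultiplicity a h ≤ rootMultiplicity a (w j) := fun j =>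
    rootMultiplicity_le_rootMultiplicity_of_dvd (hw0 j) (hspan _ (hw1 j)).2 a
  have ho : ∀ j, rootMultiplicity a (w j) = rootMultiplicity a h + e (σ j) := by
    intro j
    obtain ⟨d, hd⟩ := Nat.exists_eq_add_of_le (hlow j)
    have h1 := hB _ (hw1 j) (hw0 j)
    have h2 := hσ j
    rw [hd, Nat.cast_add, Nat.cast_add, add_right_inj] at h2
    rw [hd, cast_inj_lt p (by omega) (he _) h2]
  have hσi : Function.Injective σ := by
    intro i j hij
    apply hw3
    show rootMultiplicity a (w i) = rootMultiplicity a (w j)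
    rw [ho, ho, hij]
  have hk : Function.Injective fun j => (rootMultiplicity a (w j) : k) := by
    intro i j hij
    apply hw3
    show rootMultiplicity a (w i) = rootMultiplicity a (w j)
    have h2 : (rootMultiplicity a (w i) : k) = rootMultiplicity a (w j) := hij
    rw [ho, ho, Nat.cast_add, Nat.cast_add, add_right_inj] at h2
    rw [ho, ho, cast_inj_lt p (he _) (he _) h2]
  rw [← hw2, wr_rootMultiplicity a w hw0 hk]
  simp only [ho, Finset.sum_add_distrib, Finset.sum_const, Finset.card_univ, Fintype.card_fin,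
    smul_eq_mul]
  congr 1
  exact Function.Bijective.sum_comp (Finite.injective_iff_bijective.mp hσi) e

theorem natDegree_le_sum_rootMult [IsAlgClosed k] (W : k[X]) (S : Finset k)
    (hS : ∀ a, a ∉ S → rootMultiplicity a W = 0) :
    W.natDegree ≤ ∑ a ∈ S, rootMultiplicity a W := by
  classical
  rw [← IsAlgClosed.card_roots_eq_natDegree, ← Multiset.toFinset_sum_count_eq]
  simp only [count_roots]
  refine Finset.sum_le_sum_of_ne_zero fun a _ ha => ?_
  by_contra h
  exact ha (hS a h)

/-- The degree count in characteristic `p`. -/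
theorem count_charp (p : ℕ) [CharP k p] [IsAlgClosed k] (hp : 0 < p) {n : ℕ} (Sol : k[X] → Prop)
    (hzero : Sol 0) (hadd : ∀ u v, Sol u → Sol v → Sol (u + v))
    (hmul : ∀ c u, derivative c = 0 → Sol u → Sol (c * u))
    (hdiv : ∀ c u, derivative c = 0 → c ≠ 0 → Sol (c * u) → Sol u)
    (h : k[X]) (hh : h ≠ 0) (z : Fin n → k[X]) (hz : ∀ j, Sol (z j)) (hW : wr z ≠ 0)
    (S : Finset k) (e : k → Fin n → ℕ) (he : ∀ a j, e a j < p)
    (hind : ∀ a w, w ≠ 0 → Sol w →
      ∃ j, (rootMultiplicity a w : k) = ((rootMultiplicity a h + e a j : ℕ) : k))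
    (hS : ∀ a, a ∉ S → rootMultiplicity a h = 0 ∧ ∑ j, e a j ≤ ∑ i : Fin n, (i : ℕ)) :
    ∃ y : Fin n → k[X], wr y ≠ 0 ∧ (∀ j, Sol (y j) ∧ h ∣ y j) ∧
      (Function.Injective fun j => ((y j).natDegree : k)) ∧
      ∑ j, (y j).natDegree
        ≤ ∑ i : Fin n, (i : ℕ) + ∑ a ∈ S, (n * rootMultiplicity a h + ∑ j, e a j) := by
  obtain ⟨y, hy1, hy2, hy3, hy4⟩ := exists_minimal p hp Sol hzero hadd hmul hdiv h hh z hz hW
  refine ⟨y, hy1, fun j => hy2 _ (Submodule.subset_span ⟨j, rfl⟩), hy3, ?_⟩
  have hloc := fun a => local_orders p Sol h y hy1 hy2 a (hy4 a) (e a) (he a) (hind a)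
  have h1 := (wr_natDegree y (ne_zero_of_wr y hy1) hy3).2
  have h2 := natDegree_le_sum_rootMult (wr y) S (by
    intro a ha
    have h3 := hloc a
    obtain ⟨h4, h5⟩ := hS a ha
    rw [h4] at h3
    omega)
  have h3 : ∑ a ∈ S, rootMultiplicity a (wr y)
      ≤ ∑ a ∈ S, (n * rootMultiplicity a h + ∑ j, e a j) :=
    Finset.sum_le_sum fun a _ => by
      have := hloc a
      omega
  omega

end Pool.Agent.Lib.MP_aa40d3_nt.RR
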