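import Mathlib

set_option autoImplicit false

namespace Pool.Agent.Lib.MP_aa40d3_nt.RR

open Polynomial

/-- For `L = ∑ b_i ∂^i` of order `n` and a point `s`, the polynomial in `t` (outer variable) and
`ρ` (inner variable) `∑ b_i(s+t) t^(n-i) ρ(ρ-1)⋯(ρ-i+1)`, so that
`L (x-s)^ρ = (x-s)^(ρ-n) · symbol(x-s, ρ)`. -/
noncomputable def symbol (R : Type) [CommRing R] (n : ℕ) (b : Fin (n + 1) → ℤ[X]) (s : R) :
    R[X][X] :=
  ∑ i : Fin (n + 1), (taylor s ((b i).map (Int.castRingHom R)) * X ^ (n - (i : ℕ))).map C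
    * C (descPochhammer R i)

/-- `L` is regular singular (or ordinary) at a point of the projective line over the algebraic
numbers (`none` is infinity) with local exponents `α 0, …, α (n-1)`: the indicial polynomial has
degree `n` and these roots. At infinity the exponents refer to the parameter `1/x`. -/
def HasExponents (n : ℕ) (b : Fin (n + 1) → ℤ[X]) :
    Option (AlgebraicClosure ℚ) → (Fin n → ℚ) → Prop
  | some s, α => ∃ c : AlgebraicClosure ℚ, c ≠ 0 ∧
      (symbol (AlgebraicClosure ℚ) n b s).trailingCoeff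
        = C c * ∏ j, (X - C (α j : AlgebraicClosure ℚ))
  | none, α => ∃ c : AlgebraicClosure ℚ, c ≠ 0 ∧
      (symbol (AlgebraicClosure ℚ) n b 0).leadingCoeff
        = C c * ∏ j, (X + C (α j : AlgebraicClosure ℚ))

/-- `L = ∑ b_i ∂^i` has a full basis of algebraic solutions. -/
def AlgebraicBasis (n : ℕ) (b : Fin (n + 1) → ℤ[X]) : Prop :=
  ∃ D : Derivation ℤ (AlgebraicClosure (RatFunc ℚ)) (AlgebraicClosure (RatFunc ℚ)),
    D (algebraMap (RatFunc ℚ) (AlgebraicClosure (RatFunc ℚ)) RatFunc.X) = 1 ∧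
    ∃ y : Fin n → AlgebraicClosure (RatFunc ℚ),
      (∀ j : Fin n, ∑ i : Fin (n + 1),
          Polynomial.aeval (algebraMap (RatFunc ℚ) (AlgebraicClosure (RatFunc ℚ)) RatFunc.X) (b i)
            * (⇑D)^[(i : ℕ)] (y j) = 0) ∧
      ∀ c : Fin n → AlgebraicClosure (RatFunc ℚ), (∀ j, D (c j) = 0) →
        ∑ j : Fin n, c j * y j = 0 → ∀ j, c j = 0

/-- For all large primes `p`, the reduction of `L` has a full basis of solutions in `𝔽_p(x)`. -/
def RationalBasisModAlmostAll (n : ℕ) (b : Fin (n + 1) → ℤ[X]) : Prop :=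
  ∃ N : ℕ, ∀ p : ℕ, N < p → ∀ (_hp : Fact (Nat.Prime p)),
    ∃ D : Derivation ℤ (RatFunc (ZMod p)) (RatFunc (ZMod p)),
      D (RatFunc.X : RatFunc (ZMod p)) = 1 ∧
      ∃ y : Fin n → RatFunc (ZMod p),
        (∀ j : Fin n, ∑ i : Fin (n + 1),
            Polynomial.aeval (RatFunc.X : RatFunc (ZMod p)) (b i) * (⇑D)^[(i : ℕ)] (y j) = 0) ∧
        ∀ c : Fin n → RatFunc (ZMod p), (∀ j, D (c j) = 0) →
          ∑ j : Fin n, c j * y j = 0 → ∀ j, c j = 0

end Pool.Agent.Lib.MP_aa40d3_nt.RR
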