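import Mathlib
import Pool.Agent.Lib.MP_aa40d3_nt.RR.Defs
import Pool.Agent.Lib.MP_aa40d3_nt.RR.Core

set_option autoImplicit false

namespace Pool.Agent.Lib.MP_aa40d3_nt.RR

open Polynomial

theorem symbol_map {R R' : Type} [CommRing R] [CommRing R'] (f : R →+* R') (n : ℕ)
    (b : Fin (n + 1) → ℤ[X]) (s : R) :
    (symbol R n b s).map (mapRingHom f) = symbol R' n b (f s) := by
  unfold symbol
  rw [Polynomial.map_sum]
  refine Finset.sum_congr rfl fun i _ => ?_
  rw [Polynomial.map_mul, map_C, coe_mapRingHom, descPochhammer_map, Polynomial.map_map]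
  congr 1
  have e1 : (mapRingHom f).comp C = C.comp f := by
    apply RingHom.ext
    intro a
    simp
  have e2 : (b i).map (Int.castRingHom R') = ((b i).map (Int.castRingHom R)).map f := by
    rw [Polynomial.map_map]
    congr 1
    exact RingHom.ext_int _ _
  rw [e1, ← Polynomial.map_map, Polynomial.map_mul, map_taylor, Polynomial.map_pow, map_X, e2]

/-- Indicial data at a finite point, over any ring. -/
def IndAt (R : Type) [CommRing R] (n : ℕ) (b : Fin (n + 1) → ℤ[X]) (s c : R) (a : Fin n → R)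
    (μ : ℕ) : Prop :=
  (∀ u < μ, (symbol R n b s).coeff u = 0) ∧ (symbol R n b s).coeff μ = C c * ∏ j, (X - C (a j))

/-- Indicial data at infinity, over any ring. -/
def IndInf (R : Type) [CommRing R] (n : ℕ) (b : Fin (n + 1) → ℤ[X]) (c : R) (a : Fin n → R)
    (μ : ℕ) : Prop :=
  (∀ u, μ < u → (symbol R n b 0).coeff u = 0) ∧
    (symbol R n b 0).coeff μ = C c * ∏ j, (X + C (a j))

section maps
variable {R R' : Type} [CommRing R] [CommRing R'] (f : R →+* R') {n : ℕ}
  {b : Fin (n + 1) → ℤ[X]}

theorem symbol_coeff_map (s : R) (u : ℕ) :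
    (symbol R' n b (f s)).coeff u = ((symbol R n b s).coeff u).map f := by
  rw [← symbol_map, coeff_map, coe_mapRingHom]

theorem IndAt.map {s c : R} {a : Fin n → R} {μ : ℕ} (h : IndAt R n b s c a μ) :
    IndAt R' n b (f s) (f c) (fun j => f (a j)) μ := by
  refine ⟨fun u hu => ?_, ?_⟩
  · rw [symbol_coeff_map, h.1 u hu, Polynomial.map_zero]
  · rw [symbol_coeff_map, h.2]
    simp [Polynomial.map_prod]

theorem IndAt.of_map (hf : Function.Injective f) {s c : R} {a : Fin n → R} {μ : ℕ}
    (h : IndAt R' n b (f s) (f c) (fun j => f (a j)) μ) : IndAt R n b s c a μ := by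
  refine ⟨fun u hu => ?_, ?_⟩
  · apply Polynomial.map_injective f hf
    rw [← symbol_coeff_map, h.1 u hu, Polynomial.map_zero]
  · apply Polynomial.map_injective f hf
    rw [← symbol_coeff_map, h.2]
    simp [Polynomial.map_prod]

theorem IndInf.map {c : R} {a : Fin n → R} {μ : ℕ} (h : IndInf R n b c a μ) :
    IndInf R' n b (f c) (fun j => f (a j)) μ := by
  refine ⟨fun u hu => ?_, ?_⟩
  · rw [← map_zero f, symbol_coeff_map, h.1 u hu, Polynomial.map_zero]
  · rw [← map_zero f, symbol_coeff_map, h.2]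
    simp [Polynomial.map_prod]

theorem IndInf.of_map (hf : Function.Injective f) {c : R} {a : Fin n → R} {μ : ℕ}
    (h : IndInf R' n b (f c) (fun j => f (a j)) μ) : IndInf R n b c a μ := by
  refine ⟨fun u hu => ?_, ?_⟩
  · apply Polynomial.map_injective f hf
    rw [← symbol_coeff_map, map_zero, h.1 u hu, Polynomial.map_zero]
  · apply Polynomial.map_injective f hf
    rw [← symbol_coeff_map, map_zero, h.2]
    simp [Polynomial.map_prod]

end maps

variable {k : Type} [Field k]

/-- The operator acting on polynomials. -/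
noncomputable def opL (k : Type) [Field k] (n : ℕ) (b : Fin (n + 1) → ℤ[X]) (y : k[X]) : k[X] :=
  ∑ i : Fin (n + 1), (b i).map (Int.castRingHom k) * derivative^[(i : ℕ)] y

theorem opL_zero (n : ℕ) (b : Fin (n + 1) → ℤ[X]) : opL k n b 0 = 0 := by
  simp [opL]

theorem opL_add (n : ℕ) (b : Fin (n + 1) → ℤ[X]) (u v : k[X]) :
    opL k n b (u + v) = opL k n b u + opL k n b v := by
  unfold opL
  rw [← Finset.sum_add_distrib]
  refine Finset.sum_congr rfl fun i _ => ?_
  rw [iterate_map_add, mul_add]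

theorem opL_mul (n : ℕ) (b : Fin (n + 1) → ℤ[X]) (c u : k[X]) (hc : derivative c = 0) :
    opL k n b (c * u) = c * opL k n b u := by
  unfold opL
  rw [Finset.mul_sum]
  refine Finset.sum_congr rfl fun i _ => ?_
  rw [iter_der_const _ _ hc, mul_left_comm]

theorem symbol_conv (n : ℕ) (b : Fin (n + 1) → ℤ[X]) (s : k) (y : k[X]) (hy : opL k n b y = 0)
    (N : ℕ) : ∑ uv ∈ Finset.HasAntidiagonal.antidiagonal N,
      ((symbol k n b s).coeff uv.1).eval (uv.2 : k) * (taylor s y).coeff uv.2 = 0 := by
  have h1 : X ^ n * taylor s (opL k n b y) = ∑ i : Fin (n + 1),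
      (taylor s ((b i).map (Int.castRingHom k)) * X ^ (n - (i : ℕ)))
        * (X ^ (i : ℕ) * derivative^[(i : ℕ)] (taylor s y)) := by
    unfold opL
    rw [map_sum, Finset.mul_sum]
    refine Finset.sum_congr rfl fun i _ => ?_
    rw [taylor_mul, iter_derivative_taylor]
    have : (X : k[X]) ^ n = X ^ (n - (i : ℕ)) * X ^ (i : ℕ) := by
      rw [← pow_add, Nat.sub_add_cancel (Nat.lt_succ_iff.mp i.2)]
    rw [this]
    ring
  rw [hy, map_zero, mul_zero] at h1
  have h2 := congrArg (fun q => Polynomial.coeff q N) h1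
  simp only [coeff_zero, finsetSum_coeff] at h2
  rw [h2]
  simp only [coeff_mul (p := taylor s _ * X ^ _), coeff_euler]
  rw [Finset.sum_comm]
  refine Finset.sum_congr rfl fun uv _ => ?_
  unfold symbol
  rw [finsetSum_coeff, eval_finsetSum, Finset.sum_mul]
  refine Finset.sum_congr rfl fun i _ => ?_
  rw [coeff_mul_C, coeff_map, eval_mul, eval_C, mul_assoc]

theorem IndAt.root {n : ℕ} {b : Fin (n + 1) → ℤ[X]} {s c : k} {a : Fin n → k} {μ : ℕ}
    (h : IndAt k n b s c a μ) (hc : c ≠ 0) (y : k[X]) (hy0 : y ≠ 0) (hy : opL k n b y = 0) :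
    ∃ j, (rootMultiplicity s y : k) = a j := by
  have h1 := symbol_conv n b s y hy (μ + (taylor s y).natTrailingDegree)
  rw [Finset.sum_eq_single (μ, (taylor s y).natTrailingDegree)] at h1
  · have h2 : (taylor s y).coeff (taylor s y).natTrailingDegree ≠ 0 :=
      trailingCoeff_nonzero_iff_nonzero.mpr fun h => hy0 ((taylor_eq_zero _ _).mp h)
    have h3 := (mul_eq_zero.mp h1).resolve_right h2
    simp only [h.2, eval_mul, eval_C, eval_prod, eval_sub, eval_X] at h3
    obtain ⟨j, _, hj⟩ := Finset.prod_eq_zero_iff.mp ((mul_eq_zero.mp h3).resolve_left hc)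
    exact ⟨j, by rw [rootMult_taylor]; exact sub_eq_zero.mp hj⟩
  · rintro ⟨u, v⟩ huv hne
    have h2 := Finset.HasAntidiagonal.mem_antidiagonal.mp huv
    simp only at h2 ⊢
    rcases lt_or_ge u μ with hu | hu
    · rw [h.1 u hu, eval_zero, zero_mul]
    · have hv : v < (taylor s y).natTrailingDegree := by
        by_contra hv
        apply hne
        have h3 : u = μ := by omega
        have h4 : v = (taylor s y).natTrailingDegree := by omega
        rw [h3, h4]
      rw [coeff_eq_zero_of_lt_natTrailingDegree hv, mul_zero]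
  · intro hn
    exact (hn (Finset.HasAntidiagonal.mem_antidiagonal.mpr rfl)).elim

theorem IndInf.root {n : ℕ} {b : Fin (n + 1) → ℤ[X]} {c : k} {a : Fin n → k} {μ : ℕ}
    (h : IndInf k n b c a μ) (hc : c ≠ 0) (y : k[X]) (hy0 : y ≠ 0) (hy : opL k n b y = 0) :
    ∃ j, (y.natDegree : k) = - a j := by
  have h1 := symbol_conv n b 0 y hy (μ + y.natDegree)
  rw [taylor_zero, Finset.sum_eq_single (μ, y.natDegree)] at h1
  · have h2 : y.coeff y.natDegree ≠ 0 := leadingCoeff_ne_zero.mpr hy0
    have h3 := (mul_eq_zero.mp h1).resolve_right h2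
    simp only [h.2, eval_mul, eval_C, eval_prod, eval_add, eval_X] at h3
    obtain ⟨j, _, hj⟩ := Finset.prod_eq_zero_iff.mp ((mul_eq_zero.mp h3).resolve_left hc)
    exact ⟨j, eq_neg_of_add_eq_zero_left hj⟩
  · rintro ⟨u, v⟩ huv hne
    have h2 := Finset.HasAntidiagonal.mem_antidiagonal.mp huv
    simp only at h2 ⊢
    rcases lt_or_ge μ u with hu | hu
    · rw [h.1 u hu, eval_zero, zero_mul]
    · have hv : y.natDegree < v := by
        by_contra hv
        apply hne
        have h3 : u = μ := by omega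
        have h4 : v = y.natDegree := by omega
        rw [h3, h4]
      rw [coeff_eq_zero_of_natDegree_lt hv, mul_zero]
  · intro hn
    exact (hn (Finset.HasAntidiagonal.mem_antidiagonal.mpr rfl)).elim

theorem descPochhammer_prod (n : ℕ) :
    descPochhammer k n = ∏ j : Fin n, (X - C ((j : ℕ) : k)) := by
  induction n with
  | zero => simp
  | succ n ih => rw [descPochhammer_succ_right, ih, Fin.prod_univ_castSucc]; simp

theorem indAt_ordinary (n : ℕ) (b : Fin (n + 1) → ℤ[X]) (s : k) :
    IndAt k n b s (((b (Fin.last n)).map (Int.castRingHom k)).eval s) (fun j => ((j : ℕ) : k)) 0 := by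
  refine ⟨fun u hu => absurd hu (Nat.not_lt_zero u), ?_⟩
  unfold symbol
  rw [finsetSum_coeff, Fin.sum_univ_castSucc, Finset.sum_eq_zero, zero_add]
  · rw [coeff_mul_C, coeff_map, Fin.val_last, Nat.sub_self, pow_zero, mul_one, taylor_coeff_zero,
      descPochhammer_prod]
  · intro i _
    rw [coeff_mul_C, coeff_map, coeff_mul_X_pow', if_neg, map_zero, zero_mul]
    have := i.2
    simp only [Fin.val_castSucc]
    omega

end Pool.Agent.Lib.MP_aa40d3_nt.RR
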