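import Mathlib
import Pool.Agent.Lib.MP_aa40d3_nt.RR.Indicial
import Pool.Agent.Lib.MP_aa40d3_nt.EasyC

set_option autoImplicit false

namespace Pool.Agent.Lib.MP_aa40d3_nt.RR

open Polynomial

section defs
variable {R : Type} [CommRing R]

/-- `G^i ∂^i (H P) = H · tw i P` when `G H' = A H`. -/
noncomputable def tw (G A : R[X]) : ℕ → R[X] → R[X]
  | 0, P => P
  | i + 1, P => G * derivative (tw G A i P) + (A - (i : R[X]) * derivative G) * tw G A i P

/-- The twisted operator on polynomials. -/
noncomputable def lam (n : ℕ) (b : Fin (n + 1) → ℤ[X]) (G A P : R[X]) : R[X] :=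
  ∑ i : Fin (n + 1), (b i).map (Int.castRingHom R) * G ^ (n - (i : ℕ)) * tw G A i P

noncomputable def polG {ι : Type} [Fintype ι] (pt : ι → R) : R[X] := ∏ s, (X - C (pt s))

noncomputable def polA {ι : Type} [Fintype ι] [DecidableEq ι] (pt g : ι → R) : R[X] :=
  ∑ s, C (g s) * ∏ s' ∈ Finset.univ.erase s, (X - C (pt s'))

theorem tw_add (G A : R[X]) (i : ℕ) (P Q : R[X]) :
    tw G A i (P + Q) = tw G A i P + tw G A i Q := by
  induction i with
  | zero => rfl
  | succ i ih => simp only [tw, ih, derivative_add]; ring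

theorem tw_C_mul (G A : R[X]) (i : ℕ) (c : R) (P : R[X]) :
    tw G A i (C c * P) = C c * tw G A i P := by
  induction i with
  | zero => rfl
  | succ i ih => simp only [tw, ih, derivative_C_mul]; ring

/-- The twisted operator as a linear map. -/
noncomputable def lamL (n : ℕ) (b : Fin (n + 1) → ℤ[X]) (G A : R[X]) : R[X] →ₗ[R] R[X] where
  toFun := lam n b G A
  map_add' P Q := by
    unfold lam
    rw [← Finset.sum_add_distrib]
    exact Finset.sum_congr rfl fun i _ => by rw [tw_add, mul_add]
  map_smul' c P := by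
    unfold lam
    simp only [RingHom.id_apply, smul_eq_C_mul, Finset.mul_sum]
    exact Finset.sum_congr rfl fun i _ => by rw [tw_C_mul]; ring

variable {R' : Type} [CommRing R'] (f : R →+* R')

theorem tw_map (G A : R[X]) (i : ℕ) (P : R[X]) :
    (tw G A i P).map f = tw (G.map f) (A.map f) i (P.map f) := by
  induction i with
  | zero => rfl
  | succ i ih =>
    simp only [tw, Polynomial.map_add, Polynomial.map_mul, Polynomial.map_sub,
      Polynomial.map_natCast, ← derivative_map, ih]

theorem lam_map (n : ℕ) (b : Fin (n + 1) → ℤ[X]) (G A P : R[X]) :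
    (lam n b G A P).map f = lam n b (G.map f) (A.map f) (P.map f) := by
  unfold lam
  rw [Polynomial.map_sum]
  refine Finset.sum_congr rfl fun i _ => ?_
  rw [Polynomial.map_mul, Polynomial.map_mul, Polynomial.map_pow, tw_map, Polynomial.map_map]
  congr 3
  exact RingHom.ext_int _ _

theorem polG_map {ι : Type} [Fintype ι] (pt : ι → R) :
    (polG pt).map f = polG fun s => f (pt s) := by
  simp [polG, Polynomial.map_prod]

theorem polA_map {ι : Type} [Fintype ι] [DecidableEq ι] (pt g : ι → R) :
    (polA pt g).map f = polA (fun s => f (pt s)) fun s => f (g s) := by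
  simp [polA, Polynomial.map_prod, Polynomial.map_sum]

end defs

section ident
variable {R F : Type} [CommRing R] [CommRing F] (D : F →+ F)
  (hD : ∀ a b, D (a * b) = a * D b + b * D a) (κ : R[X] →+* F)
  (hκ : ∀ q, D (κ q) = κ (derivative q))
include hD hκ

theorem tw_ident (G A : R[X]) (H : F) (hH : κ G * D H = κ A * H) (P : R[X]) (i : ℕ) :
    κ G ^ i * D^[i] (H * κ P) = H * κ (tw G A i P) := by
  induction i with
  | zero => simp [tw]
  | succ i ih =>
    have h1 := congrArg D ih
    rw [hD, hD H, hκ, ← map_pow, hκ, derivative_pow] at h1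
    rw [Function.iterate_succ_apply']
    simp only [tw, map_add, map_mul, map_sub, map_natCast, map_pow] at h1 ⊢
    rcases i with _ | i
    · simp only [Nat.cast_zero, zero_mul, pow_zero, one_mul, mul_zero, add_zero, zero_add,
        pow_one, sub_zero] at h1 ih ⊢
      rw [h1]
      linear_combination κ (tw G A 0 P) * hH
    · simp only [Nat.add_sub_cancel] at h1
      linear_combination κ G * h1 + κ (tw G A (i + 1) P) * hH
        - ((i + 1 : ℕ) : F) * κ (derivative G) * ih

theorem lam_ident (n : ℕ) (b : Fin (n + 1) → ℤ[X]) (G A : R[X]) (H : F)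
    (hH : κ G * D H = κ A * H) (P : R[X]) :
    κ G ^ n * ∑ i : Fin (n + 1), κ ((b i).map (Int.castRingHom R)) * D^[(i : ℕ)] (H * κ P)
      = H * κ (lam n b G A P) := by
  unfold lam
  rw [map_sum, Finset.mul_sum, Finset.mul_sum]
  refine Finset.sum_congr rfl fun i _ => ?_
  have : κ G ^ n = κ G ^ (n - (i : ℕ)) * κ G ^ (i : ℕ) := by
    rw [← pow_add, Nat.sub_add_cancel (Nat.lt_succ_iff.mp i.2)]
  rw [this, map_mul, map_mul, map_pow]
  linear_combination κ ((b i).map (Int.castRingHom R)) * κ G ^ (n - (i : ℕ))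
    * tw_ident D hD κ hκ G A H hH P i

omit hκ in
theorem logder_prod {ι : Type} [Fintype ι] [DecidableEq ι] (pt g : ι → R) (h : ι → F)
    (hh : ∀ s, κ (X - C (pt s)) * D (h s) = κ (C (g s)) * h s) :
    κ (polG pt) * D (∏ s, h s) = κ (polA pt g) * ∏ s, h s := by
  have key : ∀ T : Finset ι, κ (∏ s ∈ T, (X - C (pt s))) * D (∏ s ∈ T, h s)
      = κ (∑ s ∈ T, C (g s) * ∏ s' ∈ T.erase s, (X - C (pt s'))) * ∏ s ∈ T, h s := by
    intro T
    induction T using Finset.induction_on with
    | empty => simp [Easy.d_one D hD]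
    | insert a T ha ih =>
      rw [Finset.prod_insert ha, Finset.prod_insert ha, Finset.sum_insert ha,
        Finset.erase_insert ha, hD]
      have e : ∑ s ∈ T, C (g s) * ∏ s' ∈ (insert a T).erase s, (X - C (pt s'))
          = (X - C (pt a)) * ∑ s ∈ T, C (g s) * ∏ s' ∈ T.erase s, (X - C (pt s')) := by
        rw [Finset.mul_sum]
        refine Finset.sum_congr rfl fun s hs => ?_
        have hne : a ≠ s := fun h => ha (h ▸ hs)
        rw [Finset.erase_insert_of_ne hne,
          Finset.prod_insert (fun h => ha (Finset.mem_of_mem_erase h))]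
        ring
      rw [e, map_add, map_mul, map_mul, map_mul]
      linear_combination κ (X - C (pt a)) * h a * ih
        + κ (∏ s ∈ T, (X - C (pt s))) * (∏ s ∈ T, h s) * hh a
  exact key Finset.univ

end ident

end Pool.Agent.Lib.MP_aa40d3_nt.RR
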