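import Mathlib
import Pool.Agent.Lib.MP_aa40d3_nt.RR.Twist

set_option autoImplicit false

namespace Pool.Agent.Lib.MP_aa40d3_nt.RR

open Polynomial

variable {k : Type} [Field k]

theorem rootMult_prod_pow {ι : Type} [DecidableEq k] (pt : ι → k) (T : ι → ℕ) (a : k)
    (U : Finset ι) :
    rootMultiplicity a (∏ s ∈ U, (X - C (pt s)) ^ T s)
      = ∑ s ∈ U, if pt s = a then T s else 0 := by
  classical
  induction U using Finset.induction_on with
  | empty => simp
  | insert s U hs ih =>
    rw [Finset.prod_insert hs, Finset.sum_insert hs, rootMultiplicity_mul, ih]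
    · congr 1
      split_ifs with h
      · rw [h, rootMultiplicity_X_sub_C_pow]
      · apply rootMultiplicity_eq_zero
        simp only [IsRoot.def, eval_pow, eval_sub, eval_X, eval_C, pow_eq_zero_iff', not_and]
        intro h1
        exact absurd (sub_eq_zero.mp h1).symm h
    · exact mul_ne_zero (pow_ne_zero _ (X_sub_C_ne_zero _))
        (Finset.prod_ne_zero_iff.mpr fun s _ => pow_ne_zero _ (X_sub_C_ne_zero _))

theorem linIndep_of_wr {n : ℕ} (h : k[X]) (P : Fin n → k[X]) (hW : wr (fun j => h * P j) ≠ 0) :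
    LinearIndependent k P := by
  rw [Fintype.linearIndependent_iff]
  intro c hc j
  have h1 := wr_update (fun j => h * P j) j (fun i => C (c i)) (fun i => derivative_C)
  have h2 : ∑ i, C (c i) * (h * P i) = 0 := by
    have := congrArg (fun t => h * t) hc
    simp only [Finset.mul_sum, mul_zero, smul_eq_C_mul] at this
    rw [← this]
    exact Finset.sum_congr rfl fun i _ => by ring
  rw [h2] at h1
  by_contra hcj
  have h3 : wr (Function.update (fun j => h * P j) j 0) ≠ 0 := by
    rw [h1]
    exact mul_ne_zero (C_ne_zero.mpr hcj) hW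
  exact ne_zero_of_wr _ h3 j (by simp)

theorem bounded_charp [IsAlgClosed k] (p : ℕ) [CharP k p] (hp : 0 < p) (n : ℕ) (hn : n ≤ p)
    (b : Fin (n + 1) → ℤ[X]) {ι : Type} [Fintype ι] [DecidableEq ι] (pt : ι → k)
    (hpt : Function.Injective pt)
    (hroots : ∀ a, ((b (Fin.last n)).map (Int.castRingHom k)).eval a = 0 → ∃ s, pt s = a)
    (T : ι → ℕ) (e : ι → Fin n → ℕ) (he : ∀ s j, e s j < p)
    (hInd : ∀ s, ∃ (c : k) (μ : ℕ) (a : Fin n → k), c ≠ 0 ∧ IndAt k n b (pt s) c a μ ∧
      ∀ j, a j = ((T s + e s j : ℕ) : k))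
    (einf : Fin n → ℕ) (heinf : ∀ j, einf j < p)
    (hInf : ∃ (c : k) (μ : ℕ) (a : Fin n → k), c ≠ 0 ∧ IndInf k n b c a μ ∧
      ∀ j, - a j = ((∑ s, T s + einf j : ℕ) : k))
    (z : Fin n → k[X]) (hz : ∀ j, opL k n b (z j) = 0) (hW : wr z ≠ 0) :
    ∃ P : Fin n → k[X], LinearIndependent k P ∧
      (∀ j, lam n b (polG pt) (polA pt fun s => (T s : k)) (P j) = 0) ∧
      ∑ j, (P j).natDegree ≤ ∑ i : Fin n, (i : ℕ) + ∑ s, ∑ j, e s j ∧
      ∃ σ : Fin n → Fin n, Function.Bijective σ ∧
        ∀ j, (P j).natDegree = einf (σ j) ∨ p ≤ (P j).natDegree := by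
  classical
  let h : k[X] := ∏ s, (X - C (pt s)) ^ T s
  have hh : h ≠ 0 := Finset.prod_ne_zero_iff.mpr fun s _ => pow_ne_zero _ (X_sub_C_ne_zero _)
  have hm1 : ∀ s, rootMultiplicity (pt s) h = T s := by
    intro s
    rw [rootMult_prod_pow, Finset.sum_eq_single s (fun s' _ hs' => if_neg fun h => hs' (hpt h))
      (by simp), if_pos rfl]
  have hm0 : ∀ a, (¬ ∃ s, pt s = a) → rootMultiplicity a h = 0 := by
    intro a ha
    rw [rootMult_prod_pow]
    exact Finset.sum_eq_zero fun s _ => if_neg fun h => ha ⟨s, h⟩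
  have hdeg : h.natDegree = ∑ s, T s := by
    rw [natDegree_prod _ _ fun s _ => pow_ne_zero _ (X_sub_C_ne_zero _)]
    simp
  let e' : k → Fin n → ℕ := Function.extend pt e fun _ j => (j : ℕ)
  have he1 : ∀ s, e' (pt s) = e s := fun s => hpt.extend_apply _ _ s
  have he0 : ∀ a, (¬ ∃ s, pt s = a) → e' a = fun j : Fin n => (j : ℕ) := fun a ha =>
    Function.extend_apply' _ _ _ ha
  obtain ⟨y, hy1, hy2, hy3, hy4⟩ := count_charp p hp (fun w => opL k n b w = 0) (opL_zero n b)
    (fun u v hu hv => by rw [opL_add, hu, hv, add_zero])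
    (fun c u hc hu => by rw [opL_mul _ _ _ _ hc, hu, mul_zero])
    (fun c u hc hc0 hu => by
      rw [opL_mul _ _ _ _ hc] at hu
      exact (mul_eq_zero.mp hu).resolve_left hc0)
    h hh z hz hW (Finset.univ.image pt) e'
    (by
      intro a j
      by_cases ha : ∃ s, pt s = a
      · obtain ⟨s, rfl⟩ := ha
        rw [he1]
        exact he s j
      · rw [he0 a ha]
        exact lt_of_lt_of_le j.2 hn)
    (by
      intro a w hw0 hw
      by_cases ha : ∃ s, pt s = a
      · obtain ⟨s, rfl⟩ := ha
        obtain ⟨c, μ, a, hc, hI, ha⟩ := hInd s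
        obtain ⟨j, hj⟩ := hI.root hc w hw0 hw
        exact ⟨j, by rw [hj, ha, hm1, he1]⟩
      · obtain ⟨j, hj⟩ := (indAt_ordinary n b a).root (fun h => ha (hroots a h)) w hw0 hw
        exact ⟨j, by rw [hj, hm0 a ha, he0 a ha, zero_add]⟩)
    (by
      intro a ha
      have ha' : ¬ ∃ s, pt s = a := fun ⟨s, hs⟩ =>
        ha (Finset.mem_image.mpr ⟨s, Finset.mem_univ _, hs⟩)
      exact ⟨hm0 a ha', by rw [he0 a ha']⟩)
  choose P hP using fun j => (hy2 j).2
  have hyP : y = fun j => h * P j := funext hP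
  have hy0 := ne_zero_of_wr y hy1
  have hP0 : ∀ j, P j ≠ 0 := fun j h0 => hy0 j (by rw [hP, h0, mul_zero])
  have hdy : ∀ j, (y j).natDegree = ∑ s, T s + (P j).natDegree := fun j => by
    rw [hP, natDegree_mul hh (hP0 j), hdeg]
  refine ⟨P, linIndep_of_wr h P (hyP ▸ hy1), fun j => ?_, ?_, ?_⟩
  · let D : k[X] →+ k[X] := (derivative : k[X] →ₗ[k] k[X]).toAddMonoidHom
    have hD : ∀ a b : k[X], D (a * b) = a * D b + b * D a := fun a b => by
      show derivative (a * b) = a * derivative b + b * derivative a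
      rw [derivative_mul]
      ring
    have hH := logder_prod D hD (RingHom.id _) pt (fun s => (T s : k))
      (fun s => (X - C (pt s)) ^ T s) (fun s => by
        show (X - C (pt s)) * derivative ((X - C (pt s)) ^ T s) = C (T s : k) * _
        rw [derivative_X_sub_C_pow]
        rcases T s with _ | t
        · simp
        · rw [Nat.add_sub_cancel, pow_succ]
          ring)
    have h1 := lam_ident D hD (RingHom.id _) (fun _ => rfl) n b _ _ h hH (P j)
    have h2 : opL k n b (h * P j) = 0 := hP j ▸ (hy2 j).1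
    have h3 : polG pt ^ n * opL k n b (h * P j)
        = h * lam n b (polG pt) (polA pt fun s => (T s : k)) (P j) := h1
    rw [h2, mul_zero] at h3
    exact (mul_eq_zero.mp h3.symm).resolve_left hh
  · rw [Finset.sum_image (fun s _ s' _ hs => hpt hs)] at hy4
    simp only [hdy, hm1, he1, Finset.sum_add_distrib, Finset.sum_const, Finset.card_univ,
      Fintype.card_fin, smul_eq_mul, ← Finset.mul_sum] at hy4
    omega
  · obtain ⟨c, μ, a, hc, hI, ha⟩ := hInf
    choose σ hσ using fun j => hI.root hc (y j) (hy0 j) (hy2 j).1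
    refine ⟨σ, Finite.injective_iff_bijective.mp fun i j hij => hy3 ?_, fun j => ?_⟩
    · show ((y i).natDegree : k) = (y j).natDegree
      rw [hσ, hσ, hij]
    · have h1 := hσ j
      rw [ha, hdy, Nat.cast_add, Nat.cast_add, add_right_inj] at h1
      rcases lt_or_ge (P j).natDegree p with h2 | h2
      · exact Or.inl (cast_inj_lt p h2 (heinf _) h1)
      · exact Or.inr h2

/-- Passing from rational solutions to polynomial solutions over an extension field. -/
theorem exists_poly_solutions (p : ℕ) [hp : Fact p.Prime] [CharP k p] (n : ℕ)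
    (b : Fin (n + 1) → ℤ[X]) (hb : (b (Fin.last n)).map (Int.castRingHom k) ≠ 0)
    {F : Type} [Field F] (κ : (ZMod p)[X] →+* F) (hκi : Function.Injective κ)
    (hfrac : ∀ y : F, ∃ u v, κ v ≠ 0 ∧ κ u / κ v = y)
    (D : F →+ F) (hD : ∀ a b, D (a * b) = a * D b + b * D a)
    (hx : D (κ X) = 1) (y : Fin n → F)
    (hy : ∀ j : Fin n, ∑ i : Fin (n + 1),
      κ ((b i).map (Int.castRingHom (ZMod p))) * (⇑D)^[(i : ℕ)] (y j) = 0)
    (hind : ∀ c : Fin n → F, (∀ j, D (c j) = 0) →
      ∑ j : Fin n, c j * y j = 0 → ∀ j, c j = 0) :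
    ∃ z : Fin n → k[X], (∀ j, opL k n b (z j) = 0) ∧ wr z ≠ 0 := by
  classical
  have hκ : ∀ q, D (κ q) = κ (derivative q) := by
    intro q
    obtain ⟨q, rfl⟩ := Polynomial.map_surjective (Int.castRingHom (ZMod p))
      (ZMod.ringHom_surjective _) q
    rw [derivative_map]
    exact Easy.d_ringHom D hD (κ.comp (mapRingHom (Int.castRingHom (ZMod p))))
      (by simpa using hx) q
  have hκn : ∀ (i : ℕ) q, D^[i] (κ q) = κ (derivative^[i] q) := by
    intro i q
    induction i with
    | zero => rfl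
    | succ i ih => rw [Function.iterate_succ_apply', Function.iterate_succ_apply', ih, hκ]
  have hex : ∀ j, ∃ (u : (ZMod p)[X]) (c : F), c ≠ 0 ∧ D c = 0 ∧ κ u = c * y j := by
    intro j
    obtain ⟨u, v, hv', huv⟩ := hfrac (y j)
    refine ⟨u * v ^ (p - 1), κ (v ^ p), by rw [map_pow]; exact pow_ne_zero _ hv', ?_, ?_⟩
    · rw [hκ, derivative_pow, CharP.cast_eq_zero, C_0, zero_mul, zero_mul, map_zero]
    · obtain ⟨q, hq⟩ : ∃ q, p = q + 1 := ⟨p - 1, by have := hp.out.pos; omega⟩
      have e : v ^ p = v ^ (p - 1) * v := by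
        rw [← pow_succ]
        congr 1
        omega
      rw [← huv, e, map_mul, map_mul]
      field_simp
  choose u c hc0 hc hu using hex
  have hb' : (b (Fin.last n)).map (Int.castRingHom (ZMod p)) ≠ 0 := by
    intro h0
    apply hb
    have : Int.castRingHom k = (ZMod.castHom (dvd_refl p) k).comp (Int.castRingHom (ZMod p)) :=
      RingHom.ext_int _ _
    rw [this, ← Polynomial.map_map, h0, Polynomial.map_zero]
  have hsol : ∀ j, ∑ i : Fin (n + 1), κ ((b i).map (Int.castRingHom (ZMod p)))
      * (⇑D)^[(i : ℕ)] (κ (u j)) = 0 := by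
    intro j
    have := congrArg (fun t => c j * t) (hy j)
    simp only [Finset.mul_sum, mul_zero] at this
    rw [← this]
    refine Finset.sum_congr rfl fun i _ => ?_
    rw [hu, Easy.iter_const D hD _ _ _ (hc j)]
    ring
  have hwr : wr u ≠ 0 := by
    intro h0
    have h1 : (Matrix.of fun (i j : Fin n) => D^[(i : ℕ)] (κ (u j))).det = 0 := by
      have := κ.map_det (Matrix.of fun (i j : Fin n) => derivative^[(i : ℕ)] (u j))
      have h2 : κ (wr u) = 0 := by rw [h0, map_zero]
      rw [← h2]
      refine Eq.trans ?_ this.symm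
      congr 1
      apply Matrix.ext
      intro i j
      exact hκn _ _
    obtain ⟨f, hf0, hf⟩ := Matrix.exists_mulVec_eq_zero_iff.mpr h1
    apply hf0
    funext j
    refine Easy.wronski D hD n (fun i => κ ((b i).map (Int.castRingHom (ZMod p))))
      (fun h => hb' (hκi (by rw [map_zero]; exact h))) (fun j => κ (u j)) hsol ?_ f
      (fun i hi => ?_) j
    · intro d hd hs l
      have h3 := hind (fun j => d j * c j) (fun j => by rw [hD, hd, hc]; simp) (by
        rw [← hs]
        exact Finset.sum_congr rfl fun j _ => by rw [hu, mul_assoc]) l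
      exact (mul_eq_zero.mp h3).resolve_right (hc0 l)
    · have := congrFun hf ⟨i, hi⟩
      simp only [Matrix.mulVec, dotProduct, Matrix.of_apply, Pi.zero_apply] at this
      rw [← this]
      exact Finset.sum_congr rfl fun j _ => mul_comm _ _
  let f : ZMod p →+* k := ZMod.castHom (dvd_refl p) k
  refine ⟨fun j => (u j).map f, fun j => ?_, ?_⟩
  · have h1 : opL (ZMod p) n b (u j) = 0 := by
      apply hκi
      rw [map_zero, ← hsol j]
      unfold opL
      rw [map_sum]
      exact Finset.sum_congr rfl fun i _ => by rw [map_mul, hκn]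
    have h2 := congrArg (Polynomial.map f) h1
    rw [Polynomial.map_zero] at h2
    rw [← h2]
    unfold opL
    rw [Polynomial.map_sum]
    refine Finset.sum_congr rfl fun i _ => ?_
    rw [Polynomial.map_mul, Polynomial.map_map, iterate_derivative_map]
    congr 2
    exact RingHom.ext_int _ _
  · intro h0
    apply hwr
    apply Polynomial.map_injective f f.injective
    rw [Polynomial.map_zero, ← h0]
    have := (mapRingHom f).map_det (Matrix.of fun (i j : Fin n) => derivative^[(i : ℕ)] (u j))
    refine Eq.trans this ?_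
    unfold wr
    congr 1
    apply Matrix.ext
    intro i j
    exact (iterate_derivative_map _ _ _).symm

end Pool.Agent.Lib.MP_aa40d3_nt.RR
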