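import Mathlib
import Pool.Agent.Lib.MP_aa40d3_nt.RR.Bounded

set_option autoImplicit false

namespace Pool.Agent.Lib.MP_aa40d3_nt.RR

open Polynomial

/-- A finitely generated ring of algebraic numbers has residue fields of all large prime
characteristics. -/
theorem exists_reduction {E : Type} [Field E] [CharZero E] (halg : ∀ z : E, IsAlgebraic ℤ z)
    (Z : Set E) (hZ : Z.Finite) :
    ∃ N : ℕ, ∀ p : ℕ, N < p → p.Prime → ∃ (k : Type) (_ : Field k) (_ : IsAlgClosed k)
      (_ : CharP k p), Nonempty (Subring.closure Z →+* k) := by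
  classical
  have : Algebra.IsAlgebraic ℤ E := ⟨halg⟩
  obtain ⟨g, hg, hint⟩ := Algebra.IsAlgebraic.exists_integral_multiples ℤ hZ.toFinset
  refine ⟨g.natAbs, fun p hp hpr => ?_⟩
  have hloc : ∀ b ∈ Subring.closure Z, ∃ m : ℕ, IsIntegral ℤ (g ^ m • b) := by
    intro b hb
    induction hb using Subring.closure_induction with
    | mem x hx => exact ⟨1, by rw [pow_one]; exact hint x (hZ.mem_toFinset.mpr hx)⟩
    | zero => exact ⟨0, by simpa using isIntegral_zero⟩
    | one => exact ⟨0, by simpa using isIntegral_one⟩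
    | neg a _ ih =>
      obtain ⟨m, h⟩ := ih
      exact ⟨m, by rw [smul_neg]; exact h.neg⟩
    | add a c _ _ iha ihc =>
      obtain ⟨m1, h1⟩ := iha
      obtain ⟨m2, h2⟩ := ihc
      refine ⟨m1 + m2, ?_⟩
      have e : g ^ (m1 + m2) • (a + c) = g ^ m2 • (g ^ m1 • a) + g ^ m1 • (g ^ m2 • c) := by
        rw [smul_add, smul_smul, smul_smul, ← pow_add, ← pow_add, add_comm m2 m1]
      rw [e]
      exact (h1.smul _).add (h2.smul _)
    | mul a c _ _ iha ihc =>
      obtain ⟨m1, h1⟩ := iha
      obtain ⟨m2, h2⟩ := ihc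
      refine ⟨m1 + m2, ?_⟩
      have e : g ^ (m1 + m2) • (a * c) = (g ^ m1 • a) * (g ^ m2 • c) := by
        rw [smul_mul_smul_comm, pow_add]
      rw [e]
      exact h1.mul h2
  have hne : Ideal.span {(p : Subring.closure Z)} ≠ ⊤ := by
    rw [Ne, Ideal.span_singleton_eq_top, isUnit_iff_exists_inv]
    rintro ⟨c, hc⟩
    obtain ⟨m, f, hf, hf0⟩ := hloc c c.2
    have hc' : (p : E) * (c : E) = 1 := by
      have := congrArg Subtype.val hc
      simpa using this
    have hdvd := Polynomial.dvd_pow_natDegree_of_eval₂_eq_zero (f := algebraMap ℤ E)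
      (RingHom.injective_int _) hf (p : ℤ) (g ^ m) (g ^ m • (c : E)) hf0 (by
        rw [Algebra.smul_def, map_natCast]
        linear_combination (algebraMap ℤ E (g ^ m)) * hc')
    have hprime : Prime (p : ℤ) := Nat.prime_iff_prime_int.mp hpr
    have h1 := hprime.dvd_of_dvd_pow (hprime.dvd_of_dvd_pow hdvd)
    have h2 := Int.natAbs_le_of_dvd_ne_zero h1 hg
    rw [Int.natAbs_natCast] at h2
    omega
  obtain ⟨m, hm, hle⟩ := Ideal.exists_le_maximal _ hne
  let _ := Ideal.Quotient.field m
  let φ : Subring.closure Z →+* AlgebraicClosure (Subring.closure Z ⧸ m) :=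
    (algebraMap (Subring.closure Z ⧸ m) _).comp (Ideal.Quotient.mk m)
  have hp0 : (p : AlgebraicClosure (Subring.closure Z ⧸ m)) = 0 := by
    rw [← map_natCast φ]
    show algebraMap (Subring.closure Z ⧸ m) _ (Ideal.Quotient.mk m p) = 0
    rw [Ideal.Quotient.eq_zero_iff_mem.mpr (hle (Ideal.mem_span_singleton_self _)), map_zero]
  exact ⟨AlgebraicClosure (Subring.closure Z ⧸ m), inferInstance, inferInstance,
    (CharP.charP_iff_prime_eq_zero hpr).mpr hp0, ⟨φ⟩⟩

/-- A generalized inverse together with a basis of the kernel. -/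
theorem exists_geninv {F : Type} [Field F] {B M : ℕ} (A : Matrix (Fin B) (Fin M) F) :
    ∃ (m : ℕ) (U : Matrix (Fin M) (Fin B) F) (V : Matrix (Fin M) (Fin m) F)
      (f : Matrix (Fin m) (Fin M) F), U * A + V * f = 1 ∧ A * V = 0 ∧ f * V = 1 := by
  classical
  let T := Matrix.toLin' A
  obtain ⟨W, hW⟩ := Submodule.exists_isCompl (LinearMap.ker T)
  let bs := Module.finBasis F (LinearMap.ker T)
  let π : (Fin M → F) →ₗ[F] LinearMap.ker T := Submodule.projectionOnto _ W hW
  let v : (Fin (Module.finrank F (LinearMap.ker T)) → F) →ₗ[F] (Fin M → F) :=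
    (LinearMap.ker T).subtype ∘ₗ bs.equivFun.symm.toLinearMap
  let g : (Fin M → F) →ₗ[F] (Fin (Module.finrank F (LinearMap.ker T)) → F) :=
    bs.equivFun.toLinearMap ∘ₗ π
  have hinj : LinearMap.ker (T ∘ₗ W.subtype) = ⊥ := by
    rw [LinearMap.ker_eq_bot']
    intro w hw
    have h1 : (w : Fin M → F) ∈ LinearMap.ker T ⊓ W := ⟨hw, w.2⟩
    rw [hW.inf_eq_bot] at h1
    exact Subtype.ext h1
  obtain ⟨u, hu⟩ := LinearMap.exists_leftInverse_of_injective _ hinj
  refine ⟨_, LinearMap.toMatrix' (W.subtype ∘ₗ u), LinearMap.toMatrix' v, LinearMap.toMatrix' g,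
    ?_, ?_, ?_⟩
  · rw [← LinearMap.toMatrix'_toLin' A, ← LinearMap.toMatrix'_comp, ← LinearMap.toMatrix'_comp,
      ← map_add, ← LinearMap.toMatrix'_id]
    congr 1
    apply LinearMap.ext
    intro x
    obtain ⟨y, hy, w, hw, rfl⟩ := Submodule.mem_sup.mp (hW.sup_eq_top ▸ Submodule.mem_top :
      x ∈ LinearMap.ker T ⊔ W)
    have h1 : π (y + w) = ⟨y, hy⟩ := by
      rw [map_add]
      have h2 : π y = ⟨y, hy⟩ := Submodule.projectionOnto_apply_left hW ⟨y, hy⟩
      have h3 : π w = 0 := Submodule.projectionOnto_apply_right hW ⟨w, hw⟩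
      rw [h2, h3, add_zero]
    have h4 : T (y + w) = T w := by rw [map_add, LinearMap.mem_ker.mp hy, zero_add]
    have h5 : u (T w) = ⟨w, hw⟩ := LinearMap.congr_fun hu ⟨w, hw⟩
    show (u (T (y + w)) : Fin M → F) + (bs.equivFun.symm (bs.equivFun (π (y + w))) : Fin M → F)
      = y + w
    rw [h4, h5, LinearEquiv.symm_apply_apply, h1, add_comm]
  · rw [← LinearMap.toMatrix'_toLin' A, ← LinearMap.toMatrix'_comp, ← map_zero LinearMap.toMatrix']
    congr 1
    apply LinearMap.ext
    intro x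
    exact (bs.equivFun.symm x).2
  · rw [← LinearMap.toMatrix'_comp, ← LinearMap.toMatrix'_id]
    congr 1
    apply LinearMap.ext
    intro x
    show bs.equivFun (π (bs.equivFun.symm x : Fin M → F)) = x
    have h2 : π (bs.equivFun.symm x : Fin M → F) = bs.equivFun.symm x :=
      Submodule.projectionOnto_apply_left hW _
    rw [h2, LinearEquiv.apply_symm_apply]

theorem lam_sum {R : Type} [CommRing R] (n : ℕ) (b : Fin (n + 1) → ℤ[X]) (G A : R[X]) {M : ℕ}
    (c : Fin M → R) :
    lam n b G A (∑ t, C (c t) * X ^ (t : ℕ)) = ∑ t, C (c t) * lam n b G A (X ^ (t : ℕ)) := by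
  show lamL n b G A _ = _
  rw [map_sum]
  refine Finset.sum_congr rfl fun t _ => ?_
  rw [← smul_eq_C_mul, map_smul, smul_eq_C_mul]
  rfl

/-- Independent bounded-degree solutions over a residue field are at most as many as the
kernel dimension witnessed by a generalized inverse. -/
theorem card_le_of_geninv {R k : Type} [CommRing R] [Field k] (φ : R →+* k) (n : ℕ)
    (b : Fin (n + 1) → ℤ[X]) (G A : R[X]) {B M m : ℕ} (U : Matrix (Fin M) (Fin B) R)
    (V : Matrix (Fin M) (Fin m) R) (f : Matrix (Fin m) (Fin M) R)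
    (hUV : U * (Matrix.of fun (u : Fin B) (t : Fin M) => (lam n b G A (X ^ (t : ℕ))).coeff u)
      + V * f = 1)
    {J : Type} [Fintype J] (P : J → k[X]) (hP : LinearIndependent k P)
    (hdeg : ∀ j, (P j).natDegree < M) (hlam : ∀ j, lam n b (G.map φ) (A.map φ) (P j) = 0) :
    Fintype.card J ≤ m := by
  classical
  let θ : (Fin m → k) →ₗ[k] k[X] :=
    (Fintype.linearCombination k fun t : Fin M => (X : k[X]) ^ (t : ℕ)) ∘ₗ
      Matrix.toLin' (V.map φ)
  have hmem : ∀ j, P j ∈ LinearMap.range θ := by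
    intro j
    let c : Fin M → k := fun t => (P j).coeff t
    have hPc : P j = ∑ t, C (c t) * X ^ (t : ℕ) := by
      conv_lhs => rw [(P j).as_sum_range' M (hdeg j)]
      rw [Finset.sum_range]
      exact Finset.sum_congr rfl fun t _ => (C_mul_X_pow_eq_monomial).symm
    have h1 : ((Matrix.of fun (u : Fin B) (t : Fin M) =>
        (lam n b G A (X ^ (t : ℕ))).coeff u).map φ).mulVec c = 0 := by
      funext u
      have h2 := congrArg (fun q => Polynomial.coeff q u) (hlam j)
      rw [hPc, lam_sum] at h2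
      simp only [finsetSum_coeff, coeff_C_mul, coeff_zero] at h2
      rw [Pi.zero_apply, ← h2]
      simp only [Matrix.mulVec, dotProduct, Matrix.map_apply, Matrix.of_apply]
      refine Finset.sum_congr rfl fun t _ => ?_
      rw [← coeff_map, lam_map, Polynomial.map_pow, map_X, mul_comm]
    have h3 := congrArg (fun Q => (Matrix.map Q φ).mulVec c) hUV
    simp only [Matrix.map_add φ (map_add φ), Matrix.map_mul, Matrix.map_one φ (map_zero φ)
      (map_one φ), Matrix.add_mulVec, Matrix.one_mulVec, ← Matrix.mulVec_mulVec, h1,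
      Matrix.mulVec_zero, zero_add] at h3
    refine ⟨(f.map φ).mulVec c, ?_⟩
    show Fintype.linearCombination k (fun t : Fin M => (X : k[X]) ^ (t : ℕ))
      ((V.map φ).mulVec ((f.map φ).mulVec c)) = P j
    rw [h3, Fintype.linearCombination_apply, hPc]
    exact Finset.sum_congr rfl fun t _ => smul_eq_C_mul _
  have hli : LinearIndependent k (fun j => (⟨P j, hmem j⟩ : LinearMap.range θ)) :=
    LinearIndependent.of_comp (LinearMap.range θ).subtype hP
  have h1 := hli.fintype_card_le_finrank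
  have h2 := LinearMap.finrank_range_le θ
  rw [Module.finrank_fin_fun] at h2
  omega

/-- Representatives modulo `p` of a rational number. -/
theorem exists_rep (γ : ℚ) (l : ℤ) (p : ℕ) (hdiv : (γ.den : ℤ) ∣ 1 + p * l)
    (hp : |γ| * γ.den < p) :
    ∃ e : ℕ, e < p ∧ ((e : ℚ) = γ + p * Int.fract (l * γ) ∨
      ((e : ℚ) = γ + p * Int.fract (l * γ) + p ∧ γ < 0)) := by
  obtain ⟨t, ht⟩ := hdiv
  have hden : (0 : ℚ) < γ.den := by exact_mod_cast γ.den_pos
  have hden1 : (1 : ℚ) ≤ γ.den := by exact_mod_cast γ.den_pos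
  let r : ℤ := t * γ.num - p * ⌊(l : ℚ) * γ⌋
  have hr : (r : ℚ) = γ + p * Int.fract (l * γ) := by
    have h1 : (1 : ℚ) + p * l = γ.den * t := by exact_mod_cast ht
    have h2 : (γ.num : ℚ) = γ * γ.den := (Rat.mul_den_eq_num γ).symm
    simp only [r, Int.fract, Int.cast_sub, Int.cast_mul, Int.cast_natCast, h2]
    linear_combination (-γ) * h1
  have hf0 := Int.fract_nonneg ((l : ℚ) * γ)
  have hf1 : Int.fract ((l : ℚ) * γ) * γ.den ≤ γ.den - 1 := by
    let u : ℤ := l * γ.num - ⌊(l : ℚ) * γ⌋ * γ.den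
    have hu : (u : ℚ) = Int.fract ((l : ℚ) * γ) * γ.den := by
      have h2 : (γ.num : ℚ) = γ * γ.den := (Rat.mul_den_eq_num γ).symm
      simp only [u, Int.fract, Int.cast_sub, Int.cast_mul, Int.cast_natCast, h2]
      ring
    have h3 : (u : ℚ) < γ.den := by
      rw [hu]
      have := Int.fract_lt_one ((l : ℚ) * γ)
      nlinarith
    have h4 : u ≤ γ.den - 1 := by
      have : u < (γ.den : ℤ) := by exact_mod_cast h3
      omega
    rw [← hu]
    exact_mod_cast h4
  have habs := abs_le.mp (le_refl |γ|)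
  have hp0 : (0 : ℚ) ≤ p := Nat.cast_nonneg p
  have habs0 := abs_nonneg γ
  have hrp : r < p := by
    have : (r : ℚ) * γ.den < p * γ.den := by
      rw [hr]
      nlinarith
    have h5 : (r : ℚ) < p := lt_of_mul_lt_mul_right this hden.le
    exact_mod_cast h5
  have hrn : -(p : ℤ) < r := by
    have : -(p : ℚ) < r := by
      rw [hr]
      nlinarith
    exact_mod_cast this
  rcases le_or_gt 0 r with h | h
  · refine ⟨r.toNat, by omega, Or.inl ?_⟩
    rw [← hr]
    exact_mod_cast Int.toNat_of_nonneg h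
  · refine ⟨(r + p).toNat, by omega, Or.inr ⟨?_, ?_⟩⟩
    · rw [← hr]
      have : ((r + p).toNat : ℤ) = r + p := Int.toNat_of_nonneg (by omega)
      exact_mod_cast this
    · have : (r : ℚ) < 0 := by exact_mod_cast h
      rw [hr] at this
      nlinarith

end Pool.Agent.Lib.MP_aa40d3_nt.RR
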