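import Mathlib
import Pool.Agent.Lib.MP_aa40d3_nt.RR.Red

set_option autoImplicit false

namespace Pool.Agent.Lib.MP_aa40d3_nt.RR

open Polynomial

section casts
variable {E k : Type} [Field E] [CharZero E] [Field k] (R : Subring E) (φ : R →+* k) (p : ℕ)
  [CharP k p]

theorem cast_rep (x : R) (γ : ℚ) (hx : (x : E) = γ) (l : ℤ) (e : ℕ)
    (he : (e : ℚ) = γ + p * Int.fract (l * γ) ∨
      ((e : ℚ) = γ + p * Int.fract (l * γ) + p ∧ γ < 0)) : (e : k) = φ x := by
  have h : ∃ ε : ℤ, (e : ℚ) = γ + p * (l * γ - ⌊(l : ℚ) * γ⌋ + ε) := by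
    rcases he with h | ⟨h, _⟩
    · exact ⟨0, by rw [h, Int.fract]; simp⟩
    · exact ⟨1, by rw [h, Int.fract]; push_cast; ring⟩
  obtain ⟨ε, h⟩ := h
  have h1 : (e : R) = x + p * (l * x - (⌊(l : ℚ) * γ⌋ : ℤ) + ε) := by
    apply Subtype.ext
    have := congrArg (Rat.cast : ℚ → E) h
    push_cast at this ⊢
    rw [hx]
    exact this
  rw [← map_natCast φ, h1, map_add, map_mul, map_natCast, CharP.cast_eq_zero, zero_mul, add_zero]

theorem exists_nat_cast (hp : p.Prime) (x : R) (γ : ℚ) (hx : (x : E) = γ) (hd : γ.den < p) :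
    ∃ T : ℕ, (T : k) = φ x := by
  have := Fact.mk hp
  have h1 : (γ.den : R) * x = (γ.num : R) := by
    apply Subtype.ext
    have := congrArg (Rat.cast : ℚ → E) (Rat.den_mul_eq_num γ)
    push_cast at this ⊢
    rw [hx]
    exact this
  have h2 : (γ.den : k) * φ x = γ.num := by
    have := congrArg φ h1
    rwa [map_mul, map_natCast, map_intCast] at this
  have h3 : (γ.den : k) ≠ 0 := by
    rw [Ne, CharP.cast_eq_zero_iff k p]
    exact Nat.not_dvd_of_pos_of_lt γ.den_pos hd
  let f : ZMod p →+* k := ZMod.castHom (dvd_refl p) k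
  refine ⟨((γ.num : ZMod p) * (γ.den : ZMod p)⁻¹).val, ?_⟩
  rw [← map_natCast f, ZMod.natCast_zmod_val, map_mul, map_inv₀, map_intCast, map_natCast, ← h2]
  field_simp

end casts

theorem dvd_polG_pow {E : Type} [Field E] [IsAlgClosed E] {ι : Type} [Fintype ι] (pt : ι → E)
    (g : E[X]) (hg : g ≠ 0) (hroots : ∀ s, g.eval s = 0 → ∃ i, pt i = s) :
    g ∣ polG pt ^ g.natDegree := by
  classical
  refine (IsAlgClosed.splits g).dvd_of_roots_le_roots hg ?_
  rw [Multiset.le_iff_count]
  intro a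
  rw [count_roots, count_roots]
  by_cases ha : g.eval a = 0
  · obtain ⟨i, rfl⟩ := hroots a ha
    have h1 : rootMultiplicity (pt i) g ≤ g.natDegree := by
      rw [← count_roots]
      exact (Multiset.count_le_card _ _).trans (card_roots' g)
    refine h1.trans ?_
    unfold polG
    rw [← Finset.prod_pow, rootMult_prod_pow pt (fun _ => g.natDegree)]
    have := Finset.single_le_sum (f := fun s => if pt s = pt i then g.natDegree else 0)
      (fun _ _ => Nat.zero_le _) (Finset.mem_univ i)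
    simpa using this
  · rw [rootMultiplicity_eq_zero ha]
    exact Nat.zero_le _

theorem final_count (n m p M : ℕ) (d einf : Fin n → ℕ) (σ : Fin n → Fin n)
    (hσ : Function.Bijective σ) (hd : ∀ j, d j = einf (σ j) ∨ p ≤ d j) (γ : Fin n → ℚ) (l : ℤ)
    (K' : ℤ) (hM : ∀ j, K' - γ j < M)
    (he : ∀ j, (einf j : ℚ) = (K' - γ j) + p * Int.fract (l * (K' - γ j)) ∨
      ((einf j : ℚ) = (K' - γ j) + p * Int.fract (l * (K' - γ j)) + p ∧ K' - γ j < 0))
    (hm : Fintype.card {j // d j < M} ≤ m) :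
    (p : ℚ) * (n - ∑ j, Int.fract (l * γ j)) - ∑ j, |K' - γ j| ≤ ∑ j, (d j : ℚ) + p * m := by
  have hp0 : (0 : ℚ) ≤ p := Nat.cast_nonneg p
  have h1 : ∀ j, (p : ℚ) * (1 - Int.fract (l * γ (σ j))) - |K' - γ (σ j)|
      ≤ d j + p * (if d j < M then 1 else 0) := by
    intro j
    have hf0 := Int.fract_nonneg ((l : ℚ) * γ (σ j))
    have habs := neg_abs_le (K' - γ (σ j))
    have habs0 := abs_nonneg (K' - γ (σ j))
    have hd0 : (0 : ℚ) ≤ d j := Nat.cast_nonneg _
    split_ifs with hj
    · nlinarith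
    · rcases hd j with h | h
      · have hfr : Int.fract ((l : ℚ) * (K' - γ (σ j))) = Int.fract (-(l * γ (σ j))) := by
          have : (l : ℚ) * (K' - γ (σ j)) = -(l * γ (σ j)) + ((l * K' : ℤ) : ℚ) := by
            push_cast
            ring
          rw [this, Int.fract_add_intCast]
        have h2 := he (σ j)
        rw [hfr, ← h] at h2
        by_cases hz : Int.fract ((l : ℚ) * γ (σ j)) = 0
        · rw [Int.fract_neg_eq_zero.mpr hz] at h2
          rcases h2 with h2 | ⟨h2, _⟩
          · exfalso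
            have h3 := hM (σ j)
            have h4 : (M : ℚ) ≤ d j := by exact_mod_cast not_lt.mp hj
            linarith
          · rw [hz]
            linarith
        · rw [Int.fract_neg hz] at h2
          rcases h2 with h2 | ⟨h2, _⟩ <;> linarith
      · have h4 : (p : ℚ) ≤ d j := by exact_mod_cast h
        nlinarith
  have h2 := Finset.sum_le_sum fun j (_ : j ∈ Finset.univ) => h1 j
  rw [Finset.sum_sub_distrib, Finset.sum_add_distrib, ← Finset.mul_sum, ← Finset.mul_sum,
    Finset.sum_sub_distrib, hσ.sum_comp (fun j => Int.fract ((l : ℚ) * γ j)),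
    hσ.sum_comp (fun j => |(K' : ℚ) - γ j|), Finset.sum_boole] at h2
  rw [Fintype.card_subtype] at hm
  have h3 : ((Finset.univ.filter fun j => d j < M).card : ℚ) ≤ m := by exact_mod_cast hm
  simp only [Finset.sum_const, Finset.card_univ, Fintype.card_fin, nsmul_eq_mul, mul_one] at h2
  nlinarith

theorem qbar_alg (x : AlgebraicClosure ℚ) : IsAlgebraic ℤ x :=
  (IsFractionRing.isAlgebraic_iff ℤ ℚ _).mpr ((AlgebraicClosure.isAlgebraic ℚ).isAlgebraic x)

theorem exists_nat_bound {ι : Type} [Fintype ι] (f : ι → ℚ) : ∃ K : ℕ, ∀ i, f i < K := by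
  obtain ⟨K, hK⟩ := exists_nat_gt (∑ i, |f i|)
  exact ⟨K, fun i => lt_of_le_of_lt ((le_abs_self _).trans
    (Finset.single_le_sum (f := fun i => |f i|) (fun _ _ => abs_nonneg _) (Finset.mem_univ i))) hK⟩

/-- The Riemann-Roch lower bound for twisted polynomial solutions. -/
theorem rr_main (n : ℕ) (b : Fin (n + 1) → ℤ[X]) (hb : b (Fin.last n) ≠ 0) {ι : Type} [Fintype ι]
    [DecidableEq ι] (pt : ι → AlgebraicClosure ℚ) (hpt : Function.Injective pt)
    (hroots : ∀ s : AlgebraicClosure ℚ, aeval s (b (Fin.last n)) = 0 → ∃ i, pt i = s)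
    (α : ι → Fin n → ℚ) (αi : Fin n → ℚ) (hα : ∀ s, HasExponents n b (some (pt s)) (α s))
    (hαi : HasExponents n b none αi) (β : ι → ℚ) (βi : ℚ) (z : ℤ) (hβ : ∑ s, β s + βi = z)
    (l : ℤ) (hl : ∀ s j, IsCoprime l (α s j - β s).den) (hli : ∀ j, IsCoprime l (αi j - βi).den)
    (hR : RationalBasisModAlmostAll n b) :
    ∃ (K M m : ℕ) (V : Matrix (Fin M) (Fin m) (AlgebraicClosure ℚ))
      (f : Matrix (Fin m) (Fin M) (AlgebraicClosure ℚ)), f * V = 1 ∧
      (∀ i, lam n b (polG pt) (polA pt fun s => ((β s - K : ℚ) : AlgebraicClosure ℚ))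
        (∑ t, C (V t i) * X ^ (t : ℕ)) = 0) ∧
      (n : ℚ) - (∑ s, ∑ j, Int.fract (l * (α s j - β s)) + ∑ j, Int.fract (l * (αi j - βi)))
        ≤ m := by
  classical
  obtain ⟨K, hK⟩ := exists_nat_bound (fun sj : ι × Fin n => -(α sj.1 sj.2 - β sj.1))
  let K' : ℤ := Fintype.card ι * K - z
  obtain ⟨M, hM⟩ := exists_nat_bound (fun j : Fin n => (K' : ℚ) - (αi j - βi))
  let G := polG pt
  let A := polA pt fun s => ((β s - K : ℚ) : AlgebraicClosure ℚ)
  let B : ℕ := Finset.univ.sup (fun t : Fin M => (lam n b G A (X ^ (t : ℕ))).natDegree) + 1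
  obtain ⟨m, U, V, f, hUV, hAV, hfV⟩ := exists_geninv
    (Matrix.of fun (u : Fin B) (t : Fin M) => (lam n b G A (X ^ (t : ℕ))).coeff u)
  refine ⟨K, M, m, V, f, hfV, fun i => ?_, ?_⟩
  · rw [lam_sum]
    apply Polynomial.ext
    intro u
    rw [finsetSum_coeff, coeff_zero]
    simp only [coeff_C_mul]
    rcases lt_or_ge u B with hu | hu
    · have := congrFun (congrFun hAV ⟨u, hu⟩) i
      simp only [Matrix.mul_apply, Matrix.of_apply, Matrix.zero_apply] at this
      rw [← this]
      exact Finset.sum_congr rfl fun t _ => mul_comm _ _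
    · refine Finset.sum_eq_zero fun t _ => ?_
      have h1 := Finset.le_sup (f := fun t : Fin M => (lam n b G A (X ^ (t : ℕ))).natDegree)
        (Finset.mem_univ t)
      rw [coeff_eq_zero_of_natDegree_lt (lt_of_lt_of_le (Nat.lt_succ_of_le h1) hu), mul_zero]
  by_contra hlt
  rw [not_le] at hlt
  choose c hc0 hc using hα
  obtain ⟨ci, hci0, hci⟩ := hαi
  have hbE : (b (Fin.last n)).map (Int.castRingHom (AlgebraicClosure ℚ)) ≠ 0 :=
    (Polynomial.map_ne_zero_iff (RingHom.injective_int _)).mpr hb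
  obtain ⟨q, hq⟩ := dvd_polG_pow pt _ hbE (fun s hs => hroots s (by
    rw [aeval_def, eval₂_eq_eval_map]
    exact hs))
  let Z : Set (AlgebraicClosure ℚ) :=
    Set.range pt ∪ Set.range (fun ss : ι × ι => (pt ss.1 - pt ss.2)⁻¹) ∪ Set.range c
      ∪ Set.range (fun s => (c s)⁻¹) ∪ {ci, ci⁻¹, (βi : AlgebraicClosure ℚ)}
      ∪ Set.range (fun sj : ι × Fin n => (α sj.1 sj.2 : AlgebraicClosure ℚ))
      ∪ Set.range (fun j => (αi j : AlgebraicClosure ℚ))
      ∪ Set.range (fun s => (β s : AlgebraicClosure ℚ))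
      ∪ Set.range (fun ij : Fin M × Fin B => U ij.1 ij.2)
      ∪ Set.range (fun ij : Fin M × Fin m => V ij.1 ij.2)
      ∪ Set.range (fun ij : Fin m × Fin M => f ij.1 ij.2) ∪ (q.coeffs : Set _)
  have hZ : Z.Finite := by
    simp only [Z, Set.finite_union, Set.finite_range, true_and, and_true, Finset.finite_toSet]
    exact Set.toFinite _
  obtain ⟨N1, hN1⟩ := exists_reduction (E := AlgebraicClosure ℚ) qbar_alg Z hZ
  obtain ⟨N2, hN2⟩ := hR
  set χ : ℚ := (n : ℚ) - (∑ s, ∑ j, Int.fract (l * (α s j - β s))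
    + ∑ j, Int.fract (l * (αi j - βi))) with hχ
  let C0 : ℚ := ((∑ i : Fin n, (i : ℕ) : ℕ) : ℚ) + ∑ s, ∑ j, (α s j - β s + K)
    + ∑ j, |(K' : ℚ) - (αi j - βi)|
  obtain ⟨N3, hN3⟩ := exists_nat_gt (C0 / (χ - m))
  obtain ⟨N4, hN4⟩ := exists_nat_bound (fun sj : ι × Fin n =>
    |α sj.1 sj.2 - β sj.1 + K| * (α sj.1 sj.2 - β sj.1 + K).den)
  obtain ⟨N5, hN5⟩ := exists_nat_bound (fun j : Fin n =>
    |(K' : ℚ) - (αi j - βi)| * ((K' : ℚ) - (αi j - βi)).den)
  obtain ⟨N6, hN6⟩ := exists_nat_bound (fun s : ι => ((β s - K).den : ℚ))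
  let N : ℕ := (∏ sj : ι × Fin n, (α sj.1 sj.2 - β sj.1).den) * ∏ j, (αi j - βi).den
  have hN0 : N ≠ 0 := mul_ne_zero (Finset.prod_ne_zero_iff.mpr fun _ _ => Rat.den_nz _)
    (Finset.prod_ne_zero_iff.mpr fun _ _ => Rat.den_nz _)
  have : NeZero N := ⟨hN0⟩
  have hlN : IsUnit (l : ZMod N) := by
    rw [ZMod.coe_int_isUnit_iff_isCoprime]
    apply IsCoprime.symm
    simp only [N]
    push_cast
    exact IsCoprime.mul_right (IsCoprime.prod_right fun sj _ => hl _ _)
      (IsCoprime.prod_right fun j _ => hli _)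
  obtain ⟨u, hu⟩ := hlN
  obtain ⟨p, hpN, hp, hpu⟩ := Nat.forall_exists_prime_gt_and_eq_mod (q := N)
    (a := ((-u⁻¹ : (ZMod N)ˣ) : ZMod N)) (Units.isUnit _) (N1 + N2 + N3 + N4 + N5 + N6 + n)
  have hdivN : (N : ℤ) ∣ 1 + p * l := by
    rw [← ZMod.intCast_zmod_eq_zero_iff_dvd]
    push_cast
    rw [hpu, ← hu]
    simp
  have hdiv : ∀ s j, ((α s j - β s + K).den : ℤ) ∣ 1 + p * l := by
    intro s j
    rw [Rat.add_natCast_den]
    refine Dvd.dvd.trans (Int.natCast_dvd_natCast.mpr ?_) hdivN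
    exact Dvd.dvd.mul_right (Finset.dvd_prod_of_mem
      (fun sj : ι × Fin n => (α sj.1 sj.2 - β sj.1).den) (Finset.mem_univ (s, j))) _
  have hdivi : ∀ j, (((K' : ℚ) - (αi j - βi)).den : ℤ) ∣ 1 + p * l := by
    intro j
    rw [Rat.intCast_sub_den]
    refine Dvd.dvd.trans (Int.natCast_dvd_natCast.mpr ?_) hdivN
    exact Dvd.dvd.mul_left (Finset.dvd_prod_of_mem
      (fun j => (αi j - βi).den) (Finset.mem_univ j)) _
  have hcast : ∀ N' : ℕ, N' ≤ N1 + N2 + N3 + N4 + N5 + N6 + n → (N' : ℚ) < p := fun N' h => by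
    exact_mod_cast lt_of_le_of_lt h hpN
  choose e he1 he2 using fun s j => exists_rep (α s j - β s + K) l p (hdiv s j)
    ((hN4 (s, j)).trans (hcast _ (by omega)))
  choose einf hei1 hei2 using fun j => exists_rep ((K' : ℚ) - (αi j - βi)) l p (hdivi j)
    ((hN5 j).trans (hcast _ (by omega)))
  obtain ⟨k, _, _, _, ⟨φ⟩⟩ := hN1 p (by omega) hp
  have hin : ∀ x ∈ Z, x ∈ Subring.closure Z := fun x hx => Subring.subset_closure hx
  let pt' : ι → Subring.closure Z := fun s => ⟨pt s, hin _ (by simp [Z])⟩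
  let c' : ι → Subring.closure Z := fun s => ⟨c s, hin _ (by simp [Z])⟩
  let ci' : Subring.closure Z := ⟨ci, hin _ (by simp [Z])⟩
  let βi' : Subring.closure Z := ⟨βi, hin _ (by simp [Z])⟩
  let α' : ι → Fin n → Subring.closure Z := fun s j => ⟨α s j, hin _ (by
    simp only [Z, Set.mem_union, Set.mem_range]
    exact Or.inl (Or.inl (Or.inl (Or.inl (Or.inl (Or.inl (Or.inr ⟨(s, j), rfl⟩)))))))⟩
  let αi' : Fin n → Subring.closure Z := fun j => ⟨αi j, hin _ (by
    simp only [Z, Set.mem_union, Set.mem_range]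
    exact Or.inl (Or.inl (Or.inl (Or.inl (Or.inl (Or.inr ⟨j, rfl⟩))))))⟩
  let β' : ι → Subring.closure Z := fun s => ⟨β s, hin _ (by
    simp only [Z, Set.mem_union, Set.mem_range]
    exact Or.inl (Or.inl (Or.inl (Or.inl (Or.inr ⟨s, rfl⟩)))))⟩
  let U' : Matrix (Fin M) (Fin B) (Subring.closure Z) := fun i j => ⟨U i j, hin _ (by
    simp only [Z, Set.mem_union, Set.mem_range]
    exact Or.inl (Or.inl (Or.inl (Or.inr ⟨(i, j), rfl⟩))))⟩
  let V' : Matrix (Fin M) (Fin m) (Subring.closure Z) := fun i j => ⟨V i j, hin _ (by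
    simp only [Z, Set.mem_union, Set.mem_range]
    exact Or.inl (Or.inl (Or.inr ⟨(i, j), rfl⟩)))⟩
  let f' : Matrix (Fin m) (Fin M) (Subring.closure Z) := fun i j => ⟨f i j, hin _ (by
    simp only [Z, Set.mem_union, Set.mem_range]
    exact Or.inl (Or.inr ⟨(i, j), rfl⟩))⟩
  let q' : (Subring.closure Z)[X] := q.toSubring _ fun x hx => hin x (Or.inr hx)
  have hunit : ∀ x : Subring.closure Z, (x : AlgebraicClosure ℚ) ≠ 0 →
      (x : AlgebraicClosure ℚ)⁻¹ ∈ Z → φ x ≠ 0 := by
    intro x hx hx' h0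
    have h1 : x * ⟨_, hin _ hx'⟩ = 1 := Subtype.ext (mul_inv_cancel₀ hx)
    have h2 := congrArg φ h1
    rw [map_mul, h0, zero_mul, map_one] at h2
    exact zero_ne_one h2
  have hinj : Function.Injective (Subring.closure Z).subtype := Subtype.val_injective
  have hq' : polG (fun s => φ (pt' s)) ^ ((b (Fin.last n)).map
      (Int.castRingHom (AlgebraicClosure ℚ))).natDegree
      = (b (Fin.last n)).map (Int.castRingHom k) * q'.map φ := by
    have h1 : polG pt' ^ ((b (Fin.last n)).map (Int.castRingHom (AlgebraicClosure ℚ))).natDegree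
        = (b (Fin.last n)).map (Int.castRingHom _) * q' := by
      apply Polynomial.map_injective _ hinj
      rw [Polynomial.map_pow, Polynomial.map_mul, polG_map, map_toSubring, Polynomial.map_map]
      exact hq
    have h2 := congrArg (Polynomial.map φ) h1
    rw [Polynomial.map_pow, Polynomial.map_mul, polG_map, Polynomial.map_map] at h2
    rw [h2]
    congr 2
    exact RingHom.ext_int _ _
  have hbk : (b (Fin.last n)).map (Int.castRingHom k) ≠ 0 := by
    intro h0
    rw [h0, zero_mul] at hq'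
    exact pow_ne_zero _ (Finset.prod_ne_zero_iff.mpr fun s _ => X_sub_C_ne_zero _) hq'
  have hpf := Fact.mk hp
  obtain ⟨D, hDx, y, hy, hind⟩ := hN2 p (by omega) hpf
  have hF : ∀ a : ℤ[X], Polynomial.aeval (RatFunc.X : RatFunc (ZMod p)) a
      = algebraMap (ZMod p)[X] (RatFunc (ZMod p)) (a.map (Int.castRingHom (ZMod p))) := by
    intro a
    have e : (Polynomial.aeval (RatFunc.X : RatFunc (ZMod p)) : ℤ[X] →ₐ[ℤ] _).toRingHom
      = (algebraMap (ZMod p)[X] (RatFunc (ZMod p))).comp
        (mapRingHom (Int.castRingHom (ZMod p))) := by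
      apply Polynomial.ringHom_ext
      · intro c
        simp
      · show Polynomial.aeval _ (X : ℤ[X]) = _
        simp
    exact DFunLike.congr_fun e a
  obtain ⟨w, hw, hW⟩ := exists_poly_solutions (k := k) p n b hbk
    (algebraMap (ZMod p)[X] (RatFunc (ZMod p))) (IsFractionRing.injective _ _)
    (fun y => by
      obtain ⟨u, v, hv, huv⟩ := IsFractionRing.div_surjective (A := (ZMod p)[X]) y
      exact ⟨u, v, fun h => nonZeroDivisors.ne_zero hv
        (IsFractionRing.injective (ZMod p)[X] (RatFunc (ZMod p)) (by rw [h, map_zero])), huv⟩)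
    (AddMonoidHom.mk' (⇑D) (Derivation.map_add D))
    (fun a b => by
      show D (a * b) = a * D b + b * D a
      rw [Derivation.leibniz, smul_eq_mul, smul_eq_mul])
    (by rw [RatFunc.algebraMap_X]; exact hDx) y (fun j => by simp only [← hF]; exact hy j) hind
  choose T hT using fun s => exists_nat_cast (Subring.closure Z) φ p hp (β' s - K) (β s - K)
    (by push_cast; rfl) (by exact_mod_cast (hN6 s).trans (hcast _ (by omega)))
  have hek : ∀ s j, (e s j : k) = φ (α' s j - β' s + K) := fun s j =>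
    cast_rep (Subring.closure Z) φ p _ _ (by push_cast; rfl) l _ (he2 s j)
  have heik : ∀ j, (einf j : k) = φ (K' - (αi' j - βi')) := fun j =>
    cast_rep (Subring.closure Z) φ p _ _ (by push_cast; rfl) l _ (hei2 j)
  obtain ⟨P, hP1, hP2, hP3, σ, hσ, hP4⟩ := bounded_charp p hp.pos n (by omega) b
    (fun s => φ (pt' s))
    (by
      intro s s' hss
      by_contra hne
      refine hunit (pt' s - pt' s') (sub_ne_zero.mpr fun h => hne (hpt h)) ?_
        (by rw [map_sub]; exact sub_eq_zero.mpr hss)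
      simp only [Z, Set.mem_union, Set.mem_range]
      exact Or.inl (Or.inl (Or.inl (Or.inl (Or.inl (Or.inl (Or.inl (Or.inl (Or.inl (Or.inl
        (Or.inr ⟨(s, s'), rfl⟩)))))))))))
    (by
      intro a ha
      have h1 := congrArg (Polynomial.eval a) hq'
      rw [eval_mul, ha, zero_mul, eval_pow] at h1
      have h2 := pow_eq_zero_iff'.mp h1
      unfold polG at h2
      rw [eval_prod] at h2
      obtain ⟨s, _, hs⟩ := Finset.prod_eq_zero_iff.mp h2.1
      refine ⟨s, ?_⟩
      simp only [eval_sub, eval_X, eval_C] at hs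
      exact (sub_eq_zero.mp hs).symm)
    T e he1
    (fun s => ⟨φ (c' s), (symbol (AlgebraicClosure ℚ) n b (pt s)).natTrailingDegree,
      fun j => φ (α' s j), hunit _ (hc0 s) (by simp [Z, c']),
      IndAt.map φ (IndAt.of_map _ hinj
        ⟨fun u hu => coeff_eq_zero_of_lt_natTrailingDegree hu, hc s⟩),
      fun j => by rw [Nat.cast_add, hT, hek, ← map_add]; exact congrArg φ (by ring)⟩)
    einf hei1
    ⟨φ ci', (symbol (AlgebraicClosure ℚ) n b 0).natDegree,
      fun j => φ (αi' j), hunit _ hci0 (by simp [Z, ci']),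
      IndInf.map φ (IndInf.of_map _ hinj
        ⟨fun u hu => coeff_eq_zero_of_natDegree_lt hu, hci⟩),
      fun j => by
        rw [Nat.cast_add, Nat.cast_sum, heik]
        simp only [hT]
        rw [← map_sum, ← map_add, ← map_neg]
        congr 1
        apply Subtype.ext
        have h1 := congrArg (Rat.cast : ℚ → AlgebraicClosure ℚ) hβ
        simp only [K', β', αi', βi']
        push_cast at h1 ⊢
        rw [Finset.sum_sub_distrib, Finset.sum_const, Finset.card_univ, nsmul_eq_mul]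
        linear_combination -h1⟩
    w hw hW
  have hcard := card_le_of_geninv φ n b (polG pt') (polA pt' fun s => β' s - K) U' V' f'
    (by
      apply Matrix.ext
      intro i j
      apply Subtype.ext
      have h1 := congrFun (congrFun hUV i) j
      have h2 : ∀ (u : ℕ) (t : ℕ), (((lam n b (polG pt') (polA pt' fun s => β' s - K)
          (X ^ t)).coeff u : Subring.closure Z) : AlgebraicClosure ℚ)
          = (lam n b G A (X ^ t)).coeff u := by
        intro u t
        have h3 := coeff_map (p := lam n b (polG pt') (polA pt' fun s => β' s - K) (X ^ t))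
          (Subring.closure Z).subtype u
        rw [lam_map, polG_map, polA_map, Polynomial.map_pow, map_X] at h3
        refine h3.symm.trans ?_
        congr 3
        funext s
        simp [β']
      simp only [Matrix.add_apply, Matrix.mul_apply, Matrix.of_apply, Matrix.one_apply] at h1 ⊢
      push_cast
      simp only [h2]
      refine h1.trans ?_
      split_ifs <;> rfl)
    (fun j : {j // (P j).natDegree < M} => P j) (hP1.comp _ Subtype.val_injective)
    (fun j => j.2) (fun j => by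
      rw [polG_map, polA_map]
      simp only [← hT]
      exact hP2 j)
  have h1 := final_count n m p M (fun j => (P j).natDegree) einf σ hσ hP4 (fun j => αi j - βi) l
    K' hM hei2 hcard
  have h2 : ∑ j, ((P j).natDegree : ℚ) ≤ ((∑ i : Fin n, (i : ℕ) : ℕ) : ℚ)
      + ∑ s, ∑ j, (e s j : ℚ) := by exact_mod_cast hP3
  have h3 : ∑ s, ∑ j, (e s j : ℚ) = ∑ s, ∑ j, (α s j - β s + K)
      + p * ∑ s, ∑ j, Int.fract (l * (α s j - β s)) := by
    rw [Finset.mul_sum, ← Finset.sum_add_distrib]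
    refine Finset.sum_congr rfl fun s _ => ?_
    rw [Finset.mul_sum, ← Finset.sum_add_distrib]
    refine Finset.sum_congr rfl fun j _ => ?_
    have h4 : (l : ℚ) * (α s j - β s + K) = l * (α s j - β s) + ((l * K : ℤ) : ℚ) := by
      push_cast
      ring
    rcases he2 s j with h | ⟨_, h⟩
    · rw [h, h4, Int.fract_add_intCast]
    · have := hK (s, j)
      simp only at this
      linarith
  have h4 : C0 < p * (χ - m) := by
    have h5 : 0 < χ - m := sub_pos.mpr hlt
    rw [div_lt_iff₀ h5] at hN3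
    have h6 := hcast N3 (by omega)
    nlinarith
  simp only [C0] at h4
  rw [hχ] at h4
  linarith

end Pool.Agent.Lib.MP_aa40d3_nt.RR
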