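import Mathlib
import Pool.Agent.Lib.MP_aa40d3_nt.RR.Main
import Pool.Agent.Lib.MP_aa40d3_nt.Easy

set_option autoImplicit false

namespace Pool.Agent.Lib.MP_aa40d3_nt.RR

open Polynomial

theorem exists_section {F K B : Type} [Field F] [Field K] [Algebra F K] [Algebra.IsSeparable F K]
    [CommRing B] (ψ : F →+* B) (π : B →+* K) (hπ : Function.Surjective π)
    (hnil : IsNilpotent (RingHom.ker π)) (hc : ∀ a, π (ψ a) = algebraMap F K a) :
    ∃ σ : K →+* B, (∀ x, π (σ x) = x) ∧ ∀ a, σ (algebraMap F K a) = ψ a := by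
  let _ : Algebra F B := ψ.toAlgebra
  have := Algebra.FormallyEtale.of_isSeparable F K
  let g : B →ₐ[F] K := { π with commutes' := hc }
  let σ := Algebra.FormallySmooth.liftOfSurjective (AlgHom.id F K) g hπ hnil
  exact ⟨σ.toRingHom, fun x => Algebra.FormallySmooth.liftOfSurjective_apply _ g hπ hnil x,
    fun a => σ.commutes a⟩

theorem exists_ext_derivation {F K : Type} [Field F] [Field K] [Algebra F K]
    [Algebra.IsSeparable F K] (D : F →+ F) (hD : ∀ a b, D (a * b) = a * D b + b * D a) :
    ∃ E : K →+ K, (∀ a b, E (a * b) = a * E b + b * E a) ∧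
      ∀ a, E (algebraMap F K a) = algebraMap F K (D a) := by
  let ψ : F →+* TrivSqZeroExt K K :=
    { toFun := fun a => ⟨algebraMap F K a, algebraMap F K (D a)⟩
      map_one' := by
        rw [Easy.d_one D hD, map_one, map_zero]
        rfl
      map_mul' := by
        intro a b
        apply TrivSqZeroExt.ext
        · exact map_mul _ a b
        · rw [TrivSqZeroExt.snd_mul]
          show algebraMap F K (D (a * b)) = algebraMap F K a * algebraMap F K (D b)
            + algebraMap F K (D a) * algebraMap F K b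
          rw [hD, map_add, map_mul, map_mul]
          ring
      map_zero' := by
        rw [map_zero, map_zero, map_zero]
        rfl
      map_add' := by
        intro a b
        rw [map_add, map_add, map_add]
        rfl }
  obtain ⟨σ, h1, h2⟩ := exists_section ψ (TrivSqZeroExt.fstHom K K K).toRingHom
    (fun x => ⟨TrivSqZeroExt.inl x, rfl⟩) ⟨2, TrivSqZeroExt.kerIdeal_sq K K⟩
    (fun a => rfl)
  have h1' : ∀ x, (σ x).fst = x := h1
  refine ⟨(TrivSqZeroExt.sndHom K K).toAddMonoidHom.comp σ.toAddMonoidHom, ?_, ?_⟩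
  · intro a b
    show (σ (a * b)).snd = a * (σ b).snd + b * (σ a).snd
    rw [map_mul, TrivSqZeroExt.snd_mul, h1', h1']
    simp [mul_comm]
  · intro a
    show (σ (algebraMap F K a)).snd = _
    rw [h2]
    rfl

section consts
variable {K : Type} [Field K] (D : K →+ K) (hD : ∀ a b, D (a * b) = a * D b + b * D a)

/-- The field of constants. -/
def consts : Subfield K where
  carrier := {c | D c = 0}
  mul_mem' := by
    intro a b ha hb
    simp only [Set.mem_ofPred_eq] at ha hb ⊢
    rw [hD, ha, hb]; simp
  one_mem' := Easy.d_one D hD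
  add_mem' := by
    intro a b ha hb
    simp only [Set.mem_ofPred_eq] at ha hb ⊢
    rw [map_add, ha, hb, add_zero]
  zero_mem' := map_zero D
  neg_mem' := by
    intro a ha
    simp only [Set.mem_ofPred_eq] at ha ⊢
    rw [map_neg, ha, neg_zero]
  inv_mem' := by
    intro a ha
    simp only [Set.mem_ofPred_eq] at ha ⊢
    by_cases h0 : a = 0
    · rw [h0, inv_zero, map_zero]
    · have h := hD a a⁻¹
      rw [mul_inv_cancel₀ h0, Easy.d_one D hD, ha, mul_zero, add_zero] at h
      exact (mul_eq_zero.mp h.symm).resolve_left h0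

theorem linIndep_consts_iff {ι : Type} [Fintype ι] (y : ι → K) :
    LinearIndependent (consts D hD) y ↔
      ∀ c : ι → K, (∀ j, D (c j) = 0) → ∑ j, c j * y j = 0 → ∀ j, c j = 0 := by
  rw [Fintype.linearIndependent_iff]
  constructor
  · intro h c hc hs j
    have := h (fun j => ⟨c j, hc j⟩) hs j
    exact congrArg Subtype.val this
  · intro h c hs j
    exact Subtype.ext (h (fun j => (c j : K)) (fun j => (c j).2) hs j)

include hD in
theorem d_eval₂ {R : Type} [CommRing R] (f : R →+* K) (hf : ∀ a, D (f a) = 0) (x : K) (q : R[X]) :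
    D (q.eval₂ f x) = (derivative q).eval₂ f x * D x := by
  induction q using Polynomial.induction_on with
  | C c => simp [hf]
  | add p q hp hq => rw [eval₂_add, map_add, hp, hq, derivative_add, eval₂_add, add_mul]
  | monomial n c h =>
    rw [pow_succ, ← mul_assoc, eval₂_mul, hD, h, derivative_mul (f := C c * X ^ n)]
    simp only [derivative_X, mul_one, eval₂_add, eval₂_mul, eval₂_X]
    ring

include hD in
theorem eval₂_injective [CharZero K] {R : Type} [Field R] (f : R →+* K) (hf : ∀ a, D (f a) = 0)
    (x : K) (hx : D x = 1) : Function.Injective (eval₂RingHom f x) := by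
  have : CharZero R := f.charZero
  rw [injective_iff_map_eq_zero]
  intro q
  induction h : q.natDegree using Nat.strong_induction_on generalizing q with
  | _ d ih =>
    intro hq
    have hq' : q.eval₂ f x = 0 := hq
    rcases Nat.eq_zero_or_pos d with hd | hd
    · rw [hd] at h
      rw [eq_C_of_natDegree_eq_zero h, eval₂_C] at hq'
      rw [eq_C_of_natDegree_eq_zero h, (map_eq_zero f).mp hq', C_0]
    · have h1 := d_eval₂ D hD f hf x q
      rw [hq', map_zero, hx, mul_one] at h1
      have h2 := ih _ (h ▸ natDegree_derivative_lt (by omega)) (derivative q) rfl h1.symm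
      have h3 := Polynomial.derivative_eq_zero.mp h2
      omega

include hD in
theorem d_algebraic [CharZero K] (a : K) (ha : IsAlgebraic ℤ a) : D a = 0 := by
  classical
  have hex : ∃ m : ℕ, ∃ P : ℤ[X], P ≠ 0 ∧ P.eval₂ (Int.castRingHom K) a = 0 ∧ P.natDegree = m := by
    obtain ⟨P, hP, h⟩ := ha
    exact ⟨_, P, hP, h, rfl⟩
  obtain ⟨P, hP, h0, hdeg⟩ := Nat.find_spec hex
  have hpos : P.natDegree ≠ 0 := by
    intro hd
    rw [Polynomial.eq_C_of_natDegree_eq_zero hd, eval₂_C] at h0
    apply hP
    rw [Polynomial.eq_C_of_natDegree_eq_zero hd]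
    have : P.coeff 0 = 0 := by simpa using h0
    rw [this, map_zero]
  have h1 := d_eval₂ D hD (Int.castRingHom K) (fun c => by
    have : (Int.castRingHom K c) = c • (1 : K) := by simp
    rw [this, map_zsmul, Easy.d_one D hD, smul_zero]) a P
  rw [h0, map_zero] at h1
  refine (mul_eq_zero.mp h1.symm).resolve_left fun h2 => ?_
  exact Nat.find_min hex (hdeg ▸ Polynomial.natDegree_derivative_lt hpos)
    ⟨_, fun h => hpos (Polynomial.derivative_eq_zero.mp h), h2, rfl⟩

include hD in
theorem exists_radical [IsAlgClosed K] [CharZero K] (t : K) (ht0 : t ≠ 0) (ht : D t = 1) (γ : ℚ) :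
    ∃ h : K, h ≠ 0 ∧ t * D h = γ * h := by
  obtain ⟨r, hr⟩ := IsAlgClosed.exists_pow_nat_eq t γ.den_pos
  have hr0 : r ≠ 0 := by
    intro h
    rw [h, zero_pow γ.den_nz] at hr
    exact ht0 hr.symm
  obtain ⟨D', hD'⟩ := Easy.exists_intDerivation K D hD
  have hden : (γ.den : K) ≠ 0 := Nat.cast_ne_zero.mpr γ.den_nz
  have h1 : (γ.den : K) * t * D r = r := by
    have h2 := D'.leibniz_pow r γ.den
    rw [hr, hD', ht, nsmul_eq_mul, smul_eq_mul] at h2
    have h3 : t = r * r ^ (γ.den - 1) := by
      rw [← pow_succ', Nat.sub_add_cancel γ.den_pos, hr]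
    rw [h3]
    linear_combination (-r) * h2
  refine ⟨r ^ γ.num, zpow_ne_zero _ hr0, ?_⟩
  have h4 := D'.leibniz_zpow r γ.num
  rw [hD', zsmul_eq_mul, smul_eq_mul, zpow_sub_one₀ hr0] at h4
  rw [h4, Rat.cast_def]
  field_simp
  linear_combination (γ.num : K) * h1

end consts

theorem residue_int {k : Type} [Field k] {ι : Type} [Fintype ι] [DecidableEq ι] (pt : ι → k)
    (hpt : Function.Injective pt) (g1 g2 : ι → k) (r1 r2 : k[X]) (h1 : r1 ≠ 0) (h2 : r2 ≠ 0)
    (h : r1 * (polG pt * derivative r2 + polA pt g2 * r2)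
      = r2 * (polG pt * derivative r1 + polA pt g1 * r1)) (s : ι) :
    ∃ z : ℤ, g2 s - g1 s = z := by
  let Gs : k[X] := ∏ s' ∈ Finset.univ.erase s, (X - C (pt s'))
  have hG : polG pt = (X - C (pt s)) * Gs := (Finset.mul_prod_erase _ _ (Finset.mem_univ s)).symm
  have hGs : Gs.eval (pt s) ≠ 0 := by
    rw [eval_prod]
    refine Finset.prod_ne_zero_iff.mpr fun s' hs' => ?_
    simp only [eval_sub, eval_X, eval_C]
    exact sub_ne_zero.mpr fun h => (Finset.mem_erase.mp hs').1 (hpt h).symm
  have hA : ∀ g : ι → k, (polA pt g).eval (pt s) = g s * Gs.eval (pt s) := by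
    intro g
    unfold polA
    rw [eval_finsetSum, Finset.sum_eq_single s, eval_mul, eval_C]
    · intro s' _ hs'
      rw [eval_mul, eval_prod, Finset.prod_eq_zero (i := s)
        (Finset.mem_erase.mpr ⟨Ne.symm hs', Finset.mem_univ _⟩) (by simp), mul_zero]
    · simp
  have key : ∀ (r : k[X]) (g : ι → k), r ≠ 0 → ∃ (a : ℕ) (u v : k[X]), u.eval (pt s) ≠ 0 ∧
      r = (X - C (pt s)) ^ a * u ∧
      polG pt * derivative r + polA pt g * r = (X - C (pt s)) ^ a * v ∧
      v.eval (pt s) = Gs.eval (pt s) * u.eval (pt s) * (a + g s) := by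
    intro r g hr
    obtain ⟨u, hu, hu'⟩ := exists_eq_pow_rootMultiplicity_mul_and_not_dvd r hr (pt s)
    generalize rootMultiplicity (pt s) r = a at hu
    refine ⟨a, u, Gs * (C (a : k) * u + (X - C (pt s)) * derivative u) + polA pt g * u,
      fun h => hu' (dvd_iff_isRoot.mpr h), hu, ?_, ?_⟩
    · have e : (X - C (pt s)) * derivative ((X - C (pt s)) ^ a) = C (a : k) * (X - C (pt s)) ^ a := by
        rw [derivative_X_sub_C_pow]
        rcases a with _ | a
        · simp
        · rw [Nat.add_sub_cancel, pow_succ]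
          ring
      rw [hu, hG, derivative_mul]
      linear_combination Gs * u * e
    · simp only [eval_add, eval_mul, eval_C, eval_sub, eval_X, sub_self, zero_mul, add_zero, hA]
      ring
  obtain ⟨a1, u1, v1, hu1, hr1, hv1, he1⟩ := key r1 g1 h1
  obtain ⟨a2, u2, v2, hu2, hr2, hv2, he2⟩ := key r2 g2 h2
  rw [hv1, hv2] at h
  have h3 : (X - C (pt s)) ^ (a1 + a2) * (u1 * v2) = (X - C (pt s)) ^ (a1 + a2) * (u2 * v1) := by
    rw [pow_add]
    linear_combination h - (X - C (pt s)) ^ a2 * v2 * hr1 + (X - C (pt s)) ^ a1 * v1 * hr2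
  have h4 := congrArg (eval (pt s))
    (mul_left_cancel₀ (pow_ne_zero _ (X_sub_C_ne_zero (pt s))) h3)
  rw [eval_mul, eval_mul, he1, he2] at h4
  refine ⟨(a1 : ℤ) - a2, ?_⟩
  push_cast
  have h5 : Gs.eval (pt s) * u1.eval (pt s) * u2.eval (pt s)
      * ((a2 + g2 s) - (a1 + g1 s)) = 0 := by linear_combination h4
  have h6 := (mul_eq_zero.mp h5).resolve_left (mul_ne_zero (mul_ne_zero hGs hu1) hu2)
  linear_combination h6

/-- Radicals of different types are independent over the polynomials. -/
theorem types_indep {k K : Type} [Field k] [Field K] (D : K →+ K)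
    (hD : ∀ a b, D (a * b) = a * D b + b * D a) (κ : k[X] →+* K) (hκi : Function.Injective κ)
    (hκ : ∀ q, D (κ q) = κ (derivative q)) {ι I : Type} [Fintype ι] [DecidableEq ι] [Fintype I]
    (pt : ι → k) (hpt : Function.Injective pt) (g : I → ι → k)
    (hg : ∀ i i', i ≠ i' → ∃ s, ∀ z : ℤ, g i s - g i' s ≠ z) (H : I → K) (hH0 : ∀ i, H i ≠ 0)
    (hH : ∀ i, κ (polG pt) * D (H i) = κ (polA pt (g i)) * H i) (r : I → k[X])
    (hr : ∑ i, κ (r i) * H i = 0) : ∀ i, r i = 0 := by
  classical
  have key : ∀ S : Finset I, ∀ r : I → k[X], ∑ i, κ (r i) * H i = 0 →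
      (∀ i, i ∉ S → r i = 0) → ∀ i, r i = 0 := by
    intro S
    induction S using Finset.strongInduction with
    | H S ih =>
      intro r hr hS i0
      by_contra hne
      have hi0 : i0 ∈ S := by
        by_contra h
        exact hne (hS i0 h)
      have h1 : ∑ i, κ (polG pt * derivative (r i) + polA pt (g i) * r i) * H i = 0 := by
        have h2 := congrArg (fun t => κ (polG pt) * D t) hr
        simp only [map_sum, map_zero, mul_zero, Finset.mul_sum] at h2
        rw [← h2]
        refine Finset.sum_congr rfl fun i _ => ?_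
        rw [hD, hκ, map_add, map_mul, map_mul]
        linear_combination (-κ (r i)) * hH i
      have h3 := ih (S.erase i0) (Finset.erase_ssubset hi0)
        (fun i => r i0 * (polG pt * derivative (r i) + polA pt (g i) * r i)
          - r i * (polG pt * derivative (r i0) + polA pt (g i0) * r i0))
        (by
          have h4 := congrArg (fun t => κ (r i0) * t) h1
          have h5 := congrArg
            (fun t => κ (polG pt * derivative (r i0) + polA pt (g i0) * r i0) * t) hr
          simp only [Finset.mul_sum, mul_zero] at h4 h5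
          rw [← sub_zero (0 : K)]
          nth_rewrite 1 [← h4]
          rw [← h5, ← Finset.sum_sub_distrib]
          refine Finset.sum_congr rfl fun i _ => ?_
          rw [map_sub, map_mul κ (r i0), map_mul κ (r i)]
          ring)
        (by
          intro i hi
          by_cases h : i = i0
          · subst h
            exact sub_self _
          · have : i ∉ S := fun hiS => hi (Finset.mem_erase.mpr ⟨h, hiS⟩)
            rw [hS i this]
            simp)
      have h6 : ∀ i, i ≠ i0 → r i = 0 := by
        intro i hi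
        by_contra hri
        obtain ⟨s, hs⟩ := hg i i0 hi
        obtain ⟨z, hz⟩ := residue_int pt hpt (g i0) (g i) (r i0) (r i) hne hri
          (sub_eq_zero.mp (h3 i)) s
        exact hs z hz
      rw [Finset.sum_eq_single i0 (fun i _ hi => by rw [h6 i hi, map_zero, zero_mul])
        (by simp)] at hr
      exact hne (hκi (by rw [map_zero]; exact (mul_eq_zero.mp hr).resolve_right (hH0 i0)))
  exact key Finset.univ r hr (fun i hi => absurd (Finset.mem_univ i) hi)

end Pool.Agent.Lib.MP_aa40d3_nt.RR
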