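import Mathlib
import Pool.Agent.Lib.MP_aa40d3_nt.RR.Lift

set_option autoImplicit false

namespace Pool.Agent.Lib.MP_aa40d3_nt.RR

open Polynomial

theorem exists_const_embedding {E K : Type} [Field E] [CharZero E] [Field K] [CharZero K]
    [IsAlgClosed K] (halg : ∀ a : E, IsAlgebraic ℤ a) (D : K →+ K)
    (hD : ∀ a b, D (a * b) = a * D b + b * D a) : ∃ ε : E →+* K, ∀ a, D (ε a) = 0 := by
  have : Algebra.IsAlgebraic ℤ E := ⟨halg⟩
  let ε : E →ₐ[ℤ] K := IsAlgClosed.lift
  exact ⟨ε.toRingHom, fun a => d_algebraic D hD _ ((halg a).algHom ε)⟩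

theorem algebraic_of_types (n : ℕ) (b : Fin (n + 1) → ℤ[X]) {ι I : Type} [Fintype ι]
    [DecidableEq ι] [Fintype I] (pt : ι → AlgebraicClosure ℚ) (hpt : Function.Injective pt)
    (γ : I → ι → ℚ) (hγ : ∀ i i', i ≠ i' → ∃ s, ∀ z : ℤ, γ i s - γ i' s ≠ z)
    (M m : I → ℕ) (V : ∀ i, Matrix (Fin (M i)) (Fin (m i)) (AlgebraicClosure ℚ))
    (f : ∀ i, Matrix (Fin (m i)) (Fin (M i)) (AlgebraicClosure ℚ)) (hfV : ∀ i, f i * V i = 1)
    (hlam : ∀ i t, lam n b (polG pt) (polA pt fun s => (γ i s : AlgebraicClosure ℚ))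
      (∑ u, C (V i u t) * X ^ (u : ℕ)) = 0)
    (hn : n ≤ ∑ i, m i) : AlgebraicBasis n b := by
  classical
  obtain ⟨D0, hD0, hD0x⟩ := Easy.exists_derivation_ratFunc ℚ
  obtain ⟨D, hD, hDa⟩ := exists_ext_derivation (K := AlgebraicClosure (RatFunc ℚ)) D0 hD0
  obtain ⟨x, hx⟩ : ∃ x, x = algebraMap (RatFunc ℚ) (AlgebraicClosure (RatFunc ℚ)) RatFunc.X :=
    ⟨_, rfl⟩
  have hDx : D x = 1 := by rw [hx, hDa, hD0x, map_one]
  obtain ⟨ε0, hε0⟩ := exists_const_embedding qbar_alg D hD
  let ε : AlgebraicClosure ℚ →+* consts D hD := ε0.codRestrict _ hε0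
  let κ : (consts D hD)[X] →+* AlgebraicClosure (RatFunc ℚ) :=
    eval₂RingHom (consts D hD).subtype x
  have hκi : Function.Injective κ := eval₂_injective D hD _ (fun a => a.2) x hDx
  have hκ : ∀ q, D (κ q) = κ (derivative q) := fun q => by
    have := d_eval₂ D hD (consts D hD).subtype (fun a => a.2) x q
    rw [hDx, mul_one] at this
    exact this
  have ht : ∀ s, κ (X - C (ε (pt s))) ≠ 0 := fun s h =>
    X_sub_C_ne_zero _ (hκi (by rw [h, map_zero]))
  choose h hh0 hh using fun (i : I) (s : ι) => exists_radical D hD _ (ht s)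
    (by rw [hκ]; simp) (γ i s)
  let g : I → ι → consts D hD := fun i s => ε (γ i s)
  have hH : ∀ i, κ (polG fun s => ε (pt s)) * D (∏ s, h i s)
      = κ (polA (fun s => ε (pt s)) (g i)) * ∏ s, h i s := fun i =>
    logder_prod D hD κ _ _ _ fun s => by
      rw [hh]
      congr 1
      show _ = eval₂ _ _ (C _)
      rw [eval₂_C]
      exact (map_ratCast ε0 _).symm
  have hH0 : ∀ i, ∏ s, h i s ≠ 0 := fun i => Finset.prod_ne_zero_iff.mpr fun s _ => hh0 i s
  let P : ∀ i, Fin (m i) → (consts D hD)[X] := fun i t => ∑ u, C (ε (V i u t)) * X ^ (u : ℕ)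
  let y : (Σ i, Fin (m i)) → AlgebraicClosure (RatFunc ℚ) := fun it =>
    (∏ s, h it.1 s) * κ (P it.1 it.2)
  have hsol : ∀ it, ∑ i : Fin (n + 1), aeval x (b i) * (⇑D)^[(i : ℕ)] (y it) = 0 := by
    rintro ⟨i, t⟩
    have h1 := lam_ident D hD κ hκ n b _ _ _ (hH i) (P i t)
    have h2 := congrArg (Polynomial.map ε) (hlam i t)
    rw [lam_map, polG_map, polA_map, Polynomial.map_zero] at h2
    have h3 : (∑ u, C (V i u t) * X ^ (u : ℕ)).map ε = P i t := by
      simp [P, Polynomial.map_sum]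
    rw [h3] at h2
    have h4 : lam n b (polG fun s => ε (pt s)) (polA (fun s => ε (pt s)) (g i)) (P i t) = 0 := h2
    rw [h4, map_zero, mul_zero] at h1
    have h5 : κ (polG fun s => ε (pt s)) ≠ 0 := by
      unfold polG
      rw [map_prod]
      exact Finset.prod_ne_zero_iff.mpr fun s _ => ht s
    have h6 := (mul_eq_zero.mp h1).resolve_left (pow_ne_zero _ h5)
    rw [← h6]
    refine Finset.sum_congr rfl fun j _ => ?_
    congr 1
    show _ = eval₂ _ _ _
    rw [eval₂_map, aeval_def]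
    congr 1
    exact RingHom.ext_int _ _
  have hli : LinearIndependent (consts D hD) y := by
    rw [Fintype.linearIndependent_iff]
    intro c hc
    have h1 := types_indep D hD κ hκi hκ (fun s => ε (pt s))
      (fun s s' hs => hpt (ε.injective hs)) g (by
        intro i i' hii
        obtain ⟨s, hs⟩ := hγ i i' hii
        refine ⟨s, fun z hz => hs z ?_⟩
        have h2 : ε ((γ i s - γ i' s : ℚ) : AlgebraicClosure ℚ) = ε ((z : ℚ) : _) := by
          push_cast
          rw [map_sub, map_intCast]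
          exact hz
        exact_mod_cast ε.injective h2)
      (fun i => ∏ s, h i s) hH0 hH (fun i => ∑ t, C (c ⟨i, t⟩) * P i t) (by
        rw [← hc, Fintype.sum_sigma]
        refine Finset.sum_congr rfl fun i _ => ?_
        rw [map_sum, Finset.sum_mul]
        refine Finset.sum_congr rfl fun t _ => ?_
        rw [map_mul]
        have : κ (C (c ⟨i, t⟩)) = (c ⟨i, t⟩ : AlgebraicClosure (RatFunc ℚ)) := eval₂_C _ _
        rw [this]
        show _ = (c ⟨i, t⟩ : AlgebraicClosure (RatFunc ℚ)) * ((∏ s, h i s) * κ (P i t))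
        ring)
    rintro ⟨i, t⟩
    have h2 : ((V i).map ε).mulVec (fun t => c ⟨i, t⟩) = 0 := by
      funext u
      have h3 := congrArg (fun q => Polynomial.coeff q u) (h1 i)
      simp only [P, finsetSum_coeff, coeff_C_mul, coeff_X_pow, coeff_zero, Fin.val_inj, mul_ite,
        mul_one, mul_zero, Finset.sum_ite_eq, Finset.mem_univ, if_true] at h3
      rw [Pi.zero_apply, ← h3]
      simp only [Matrix.mulVec, dotProduct, Matrix.map_apply]
      exact Finset.sum_congr rfl fun t _ => mul_comm _ _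
    have h4 := congrArg (fun w => ((f i).map ε).mulVec w) h2
    simp only [Matrix.mulVec_mulVec, ← Matrix.map_mul, hfV, Matrix.map_one ε (map_zero ε)
      (map_one ε), Matrix.one_mulVec, Matrix.mulVec_zero] at h4
    exact congrFun h4 t
  obtain ⟨e⟩ : Nonempty (Fin n ↪ Σ i, Fin (m i)) :=
    Function.Embedding.nonempty_of_card_le (by simpa using hn)
  obtain ⟨D', hD'⟩ := Easy.exists_intDerivation (AlgebraicClosure (RatFunc ℚ)) D hD
  refine ⟨D', by rw [hD', ← hx]; exact hDx, y ∘ e, fun j => ?_, ?_⟩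
  · rw [hD', ← hx]
    exact hsol (e j)
  · rw [hD']
    exact (linIndep_consts_iff D hD _).mp (hli.comp e e.injective)

theorem rr_criterion (n : ℕ) (b : Fin (n + 1) → ℤ[X]) (hb : b (Fin.last n) ≠ 0)
    (S : Finset (AlgebraicClosure ℚ)) (hS : ∀ s, aeval s (b (Fin.last n)) = 0 → s ∈ S)
    (α : Option (AlgebraicClosure ℚ) → Fin n → ℚ)
    (hα : ∀ q ∈ S.insertNone, HasExponents n b q (α q))
    (m : ℕ) (β : Fin m → Option (AlgebraicClosure ℚ) → ℚ) (l : Fin m → ℤ)
    (hβ : ∀ i, ∃ z : ℤ, ∑ q ∈ S.insertNone, β i q = z)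
    (hne : ∀ i i', i ≠ i' → ∃ q ∈ S.insertNone, ∀ z : ℤ, β i q - β i' q ≠ z)
    (hl : ∀ i, ∀ q ∈ S.insertNone, ∀ j, IsCoprime (l i) (α q j - β i q).den)
    (hsum : (n : ℚ) ≤ ∑ i, ((n : ℚ)
      - ∑ q ∈ S.insertNone, ∑ j, Int.fract (l i * (α q j - β i q))))
    (hR : RationalBasisModAlmostAll n b) : AlgebraicBasis n b := by
  classical
  have hsome : ∀ s : S, some (s : AlgebraicClosure ℚ) ∈ S.insertNone := fun s =>
    Finset.some_mem_insertNone.mpr s.2
  have hnone : none ∈ S.insertNone := Finset.none_mem_insertNone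
  choose z hz using hβ
  simp only [Finset.sum_insertNone, ← Finset.sum_coe_sort S] at hz hsum
  choose K M m' V f hfV hlam hm using fun i => rr_main n b hb (fun s : S => (s : AlgebraicClosure ℚ))
    Subtype.val_injective (fun s hs => ⟨⟨s, hS s hs⟩, rfl⟩) (fun s => α (some s)) (α none)
    (fun s => hα _ (hsome s)) (hα _ hnone) (fun s => β i (some s)) (β i none) (z i)
    (by rw [← hz i, add_comm]) (l i) (fun s j => hl i _ (hsome s) j) (hl i _ hnone) hR
  refine algebraic_of_types n b (fun s : S => (s : AlgebraicClosure ℚ)) Subtype.val_injective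
    (fun i s => β i (some s) - K i) ?_ M m' V f hfV hlam ?_
  · intro i i' hii
    by_contra hall
    push Not at hall
    choose w hw using hall
    obtain ⟨q, hq, hq'⟩ := hne i i' hii
    cases q with
    | none =>
      refine hq' (z i - z i' - ∑ s, (w s + K i - K i')) ?_
      push_cast
      rw [← hz i, ← hz i']
      have : ∑ s : S, ((w s : ℚ) + K i - K i') = ∑ s : S, β i (some s) - ∑ s : S, β i' (some s) := by
        rw [← Finset.sum_sub_distrib]
        exact Finset.sum_congr rfl fun s _ => by rw [← hw s]; ring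
      rw [this]
      ring
    | some s =>
      refine hq' (w ⟨s, Finset.some_mem_insertNone.mp hq⟩ + K i - K i') ?_
      push_cast
      rw [← hw]
      ring
  · have h1 : (n : ℚ) ≤ ∑ i, (m' i : ℚ) := hsum.trans (Finset.sum_le_sum fun i _ => by
      have := hm i
      linarith)
    exact_mod_cast h1

end Pool.Agent.Lib.MP_aa40d3_nt.RR
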